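import Pool.Agent.Q247.AP.Orbit

/-!
# Every natural number is a curvature of the integer model
-/

set_option autoImplicit false

namespace Pool.Agent.Q247.AP

/-- For every odd `m ≥ 3` there is a primitive solution of `z² + 8 η² + 24 ξ² = m²` with
`η + ξ` odd. -/
theorem exists_zex {m : ℤ} (hm : 3 ≤ m) (h2 : ¬ 2 ∣ m) : ∃ z e s : ℤ,
    z ^ 2 + 8 * e ^ 2 + 24 * s ^ 2 = m ^ 2 ∧ ¬ 2 ∣ e + s ∧
    ∀ q : ℤ, Prime q → ¬ (q ∣ z ∧ q ∣ e ∧ q ∣ s) := by
  have hmn : m = ((m.toNat : ℕ) : ℤ) := by omega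
  have hg : Good m := by
    rw [hmn]
    apply good_odd
    · omega
    · omega
  obtain ⟨z, x, h, hx, hp⟩ := hg
  -- rotate `x` so that its second coordinate is even
  have key : ∃ y : Eis, nr y = nr x ∧ 2 ∣ y.im ∧ ¬ 2 ∣ y.re ∧
      (∀ q : ℤ, Prime q → (q : Eis) ∣ y → (q : Eis) ∣ x) := by
    have hq : ∀ (q : ℤ) (v : Eis), Prime q → (q : Eis) ∣ om * v → (q : Eis) ∣ v := by
      intro q v hq hv
      apply dvd_of_dvd_mul_nr hq _ hv
      rw [nr_om]
      exact fun h => hq.not_isUnit (isUnit_of_dvd_one h)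
    have hx' : ¬ ((2 : ℤ) ∣ x.re ∧ (2 : ℤ) ∣ x.im) := hx
    by_cases h1 : 2 ∣ x.im
    · exact ⟨x, rfl, h1, fun h => hx' ⟨h, h1⟩, fun q _ hd => hd⟩
    · by_cases h3 : 2 ∣ x.re
      · refine ⟨om * (om * x), by rw [nr_om_mul, nr_om_mul], ?_, ?_, ?_⟩
        · simp only [om_mul_re, om_mul_im]; omega
        · simp only [om_mul_re, om_mul_im]; omega
        · intro q hq1 hd
          exact hq q _ hq1 (hq q _ hq1 hd)
      · refine ⟨om * x, nr_om_mul x, ?_, ?_, fun q hq1 hd => hq q _ hq1 hd⟩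
        · simp only [om_mul_im]; omega
        · simp only [om_mul_re]; omega
  obtain ⟨y, hy, ⟨s, hs⟩, hre, hdv⟩ := key
  refine ⟨z, y.re - s, s, ?_, ?_, ?_⟩
  · rw [← h, ← hy]
    unfold nr
    rw [hs]
    ring
  · intro h'
    apply hre
    omega
  · rintro q hq ⟨g1, g2, g3⟩
    apply hp q hq
    refine ⟨g1, hdv q hq ?_⟩
    rw [int_dvd_iff]
    refine ⟨?_, ?_⟩
    · have := dvd_add g2 g3
      simpa using this
    · rw [hs]; exact Dvd.dvd.mul_left g3 _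

lemma frameA : Frame ![1, 0, 0, 1] ![1, 0, 0, -1] ![0, 1, 1, 0] ![0, 1, -1, 0] := by
  constructor <;> decide

lemma frameB : Frame ![0, 0, 1, 1] ![1, 1, 0, 0] ![1, -1, 0, 0] ![0, 0, 1, -1] := by
  constructor <;> decide

lemma prime_two_or {q : ℤ} (hq : Prime q) (h : q ∣ 2) : (2 : ℤ) ∣ q := by
  have : Associated q 2 := (hq.dvd_prime_iff_associated Int.prime_two).1 h
  exact this.symm.dvd

/-- Even curvatures. -/
lemma even_curv {m : ℤ} (hm : 3 ≤ m) (h2 : ¬ 2 ∣ m) : ∃ a t, Rt a t ∧ curv a t = m - 1 := by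
  obtain ⟨z, e, s, h, -, hp⟩ := exists_zex hm h2
  have hpos : 0 < m + 4 * s := by nlinarith [sq_nonneg z, sq_nonneg e]
  have hsol : (m + 6 * s + 2 * e) ^ 2 + (m + 6 * s - 2 * e) ^ 2 + z ^ 2 =
      3 * (m + 4 * s) ^ 2 := by linear_combination h
  obtain ⟨⟨k1, h1⟩, ⟨k2, h2'⟩, ⟨k3, h3⟩⟩ := par_sol hsol
  have hprim : ∀ q : ℤ, Prime q → ¬ (q ∣ m + 6 * s + 2 * e ∧ q ∣ m + 6 * s - 2 * e ∧ q ∣ z ∧
      q ∣ m + 4 * s) := by
    rintro q hq ⟨g1, g2, g3, g4⟩
    have hq2 : ¬ q ∣ 2 := by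
      intro h'
      have h5 : (2 : ℤ) ∣ m + 4 * s := (prime_two_or hq h').trans g4
      apply h2
      omega
    have h4s : q ∣ 2 * (2 * s) := by
      have := dvd_sub (dvd_add g1 g2) (dvd_add g4 g4)
      have e1 : m + 6 * s + 2 * e + (m + 6 * s - 2 * e) - (m + 4 * s + (m + 4 * s)) =
        2 * (2 * s) := by ring
      rwa [e1] at this
    have hs : q ∣ s := by
      rcases hq.dvd_or_dvd h4s with h' | h'
      · exact absurd h' hq2
      · rcases hq.dvd_or_dvd h' with h'' | h''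
        · exact absurd h'' hq2
        · exact h''
    have h4e : q ∣ 2 * (2 * e) := by
      have := dvd_sub g1 g2
      have e1 : m + 6 * s + 2 * e - (m + 6 * s - 2 * e) = 2 * (2 * e) := by ring
      rwa [e1] at this
    have he : q ∣ e := by
      rcases hq.dvd_or_dvd h4e with h' | h'
      · exact absurd h' hq2
      · rcases hq.dvd_or_dvd h' with h'' | h''
        · exact absurd h'' hq2
        · exact h''
    exact hp q hq ⟨g3, he, hs⟩
  have hr := descent (m + 4 * s).toNat _ _ _ _ frameA _ _ _ _ hpos (by omega) hsol hprim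
    ![(3 * (m + 4 * s) - 2 + (m + 6 * s + 2 * e)) / 2, ((m + 6 * s - 2 * e) + z) / 2,
      ((m + 6 * s - 2 * e) - z) / 2, (3 * (m + 4 * s) - 2 - (m + 6 * s + 2 * e)) / 2] (by
      intro i
      fin_cases i <;> simp <;> omega)
  refine ⟨_, _, hr, ?_⟩
  unfold curv
  simp only [Matrix.cons_val_zero, Matrix.cons_val_one, Matrix.cons_val]
  omega

lemma odd_tau_aux : ∀ g m e s : ZMod 4, 2 * m = 2 → 2 * (e + s) = 2 →
    8 * g ^ 2 - 6 * g * m + m ^ 2 + e ^ 2 + 3 * s ^ 2 = 0 → 2 * (g + s) = 2 := by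
  decide

lemma mod16_aux : ∀ m c : ZMod 16, 8 * m = 8 → c ^ 2 = m ^ 2 - 8 →
    (2 * (c + 3 * m) = 0 ∨ 2 * (-c + 3 * m) = 0) := by
  decide

lemma odd_sq_form_aux : ∀ e s : ZMod 16, 8 * (e + s) = 8 → 8 * e ^ 2 + 24 * s ^ 2 = 8 := by
  decide

/-- Odd curvatures. -/
lemma odd_curv {m : ℤ} (hm : 3 ≤ m) (h2 : ¬ 2 ∣ m) : ∃ a t, Rt a t ∧ curv a t = m - 2 := by
  obtain ⟨z, e, s, h, hes, hp⟩ := exists_zex hm h2
  -- choose the sign of `z`
  have z16 : ∀ n : ℤ, (16 : ℤ) ∣ n ↔ ((n : ℤ) : ZMod 16) = 0 := by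
    intro n
    have := ZMod.intCast_zmod_eq_zero_iff_dvd n 16
    simpa using this.symm
  have hsgn : ∃ c g : ℤ, c ^ 2 = z ^ 2 ∧ c + 3 * m = 8 * g ∧ (∀ q : ℤ, q ∣ c → q ∣ z) := by
    have a1 : (8 * (m : ZMod 16)) = 8 := by
      have : (16 : ℤ) ∣ 8 * m - 8 := by
        obtain ⟨k, hk⟩ : ∃ k, m = 2 * k + 1 := ⟨m / 2, by omega⟩
        exact ⟨k, by rw [hk]; ring⟩
      rw [z16] at this
      push_cast at this
      exact sub_eq_zero.1 this
    have a2 : (8 * ((e : ZMod 16) + s)) = 8 := by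
      have : (16 : ℤ) ∣ 8 * (e + s) - 8 := by
        obtain ⟨k, hk⟩ : ∃ k, e + s = 2 * k + 1 := ⟨(e + s) / 2, by omega⟩
        exact ⟨k, by rw [hk]; ring⟩
      rw [z16] at this
      push_cast at this
      exact sub_eq_zero.1 this
    have a3 := odd_sq_form_aux _ _ a2
    have a4 : (z : ZMod 16) ^ 2 = (m : ZMod 16) ^ 2 - 8 := by
      have : (((z ^ 2 + 8 * e ^ 2 + 24 * s ^ 2 : ℤ)) : ZMod 16) = ((m ^ 2 : ℤ) : ZMod 16) := by
        rw [h]
      push_cast at this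
      rw [← this]
      linear_combination -a3
    have hdiv : ∀ n : ℤ, 2 * ((n : ℤ) : ZMod 16) = 0 → ∃ g, n = 8 * g := by
      intro n hn
      have h16 : (16 : ℤ) ∣ 2 * n := by rw [z16]; push_cast; exact hn
      exact ⟨n / 8, by omega⟩
    rcases mod16_aux _ _ a1 a4 with h' | h'
    · obtain ⟨g, hg⟩ := hdiv (z + 3 * m) (by push_cast; exact h')
      exact ⟨z, g, rfl, hg, fun q hq => hq⟩
    · obtain ⟨g, hg⟩ := hdiv (-z + 3 * m) (by push_cast; exact h')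
      exact ⟨-z, g, by ring, hg, fun q hq => (dvd_neg).1 hq⟩
  obtain ⟨c, g, hc, hg, hcq⟩ := hsgn
  have hc' : c = 8 * g - 3 * m := by linarith
  have hrel : 8 * g ^ 2 - 6 * g * m + m ^ 2 + e ^ 2 + 3 * s ^ 2 = 0 := by
    have : c ^ 2 + 8 * e ^ 2 + 24 * s ^ 2 = m ^ 2 := by rw [hc]; exact h
    rw [hc'] at this
    have h8 : 8 * (8 * g ^ 2 - 6 * g * m + m ^ 2 + e ^ 2 + 3 * s ^ 2) = 0 := by
      linear_combination this
    omega
  have hsol : ((g + s) + 2 * s) ^ 2 + (3 * (g + s) - 3 * s - m + e) ^ 2 +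
      (3 * (g + s) - 3 * s - m - e) ^ 2 = 3 * (g + s) ^ 2 := by linear_combination 2 * hrel
  have hodd : ¬ (2 : ℤ) ∣ g + s := by
    have z4 : ∀ n : ℤ, (4 : ℤ) ∣ n ↔ ((n : ℤ) : ZMod 4) = 0 := by
      intro n
      have := ZMod.intCast_zmod_eq_zero_iff_dvd n 4
      simpa using this.symm
    have b1 : (2 * (m : ZMod 4)) = 2 := by
      have : (4 : ℤ) ∣ 2 * m - 2 := by omega
      rw [z4] at this
      push_cast at this
      exact sub_eq_zero.1 this
    have b2 : (2 * ((e : ZMod 4) + s)) = 2 := by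
      have : (4 : ℤ) ∣ 2 * (e + s) - 2 := by omega
      rw [z4] at this
      push_cast at this
      exact sub_eq_zero.1 this
    have b3 : (8 * (g : ZMod 4) ^ 2 - 6 * g * m + m ^ 2 + e ^ 2 + 3 * s ^ 2) = 0 := by
      have : ((8 * g ^ 2 - 6 * g * m + m ^ 2 + e ^ 2 + 3 * s ^ 2 : ℤ) : ZMod 4) = 0 := by
        rw [hrel]; rfl
      push_cast at this
      exact this
    have b4 := odd_tau_aux _ _ _ _ b1 b2 b3
    have b5 : (4 : ℤ) ∣ 2 * (g + s) - 2 := by
      rw [z4]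
      push_cast
      rw [b4, sub_self]
    omega
  have hpos : 0 < g + s := by
    have h1 : c ^ 2 + 8 * e ^ 2 + 24 * s ^ 2 = m ^ 2 := by rw [hc]; exact h
    have h3 : (c + 8 * s) ^ 2 ≤ 9 * m ^ 2 := by
      nlinarith [sq_nonneg (c - s), sq_nonneg s, sq_nonneg e]
    have h4 : -(3 * m) ≤ c + 8 * s := by
      by_contra hcon
      push Not at hcon
      nlinarith
    have h5 : 0 ≤ 8 * (g + s) := by linarith
    omega
  obtain ⟨⟨k1, h1⟩, ⟨k2, h2'⟩, ⟨k3, h3⟩⟩ := par_sol hsol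
  have hprim : ∀ q : ℤ, Prime q → ¬ (q ∣ (g + s) + 2 * s ∧ q ∣ 3 * (g + s) - 3 * s - m + e ∧
      q ∣ 3 * (g + s) - 3 * s - m - e ∧ q ∣ g + s) := by
    rintro q hq ⟨g1, g2, g3, g4⟩
    have hq2 : ¬ q ∣ 2 := by
      intro h'
      exact hodd ((prime_two_or hq h').trans g4)
    have hs : q ∣ s := by
      have : q ∣ 2 * s := (dvd_add_right g4).1 g1
      exact (hq.dvd_or_dvd this).resolve_left hq2
    have he : q ∣ e := by
      have := dvd_sub g2 g3
      have e1 : 3 * (g + s) - 3 * s - m + e - (3 * (g + s) - 3 * s - m - e) = 2 * e := by ring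
      rw [e1] at this
      exact (hq.dvd_or_dvd this).resolve_left hq2
    have hgq : q ∣ g := (dvd_add_left hs).1 g4
    have hmq : q ∣ m := by
      have : m = 3 * (g + s) - 3 * s + e - (3 * (g + s) - 3 * s - m + e) := by ring
      rw [this]
      apply dvd_sub _ g2
      apply dvd_add _ he
      exact dvd_sub (Dvd.dvd.mul_left g4 _) (Dvd.dvd.mul_left hs _)
    have hcq' : q ∣ c := by
      rw [hc']
      exact dvd_sub (Dvd.dvd.mul_left hgq _) (Dvd.dvd.mul_left hmq _)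
    exact hp q hq ⟨hcq q hcq', he, hs⟩
  have hr := descent (g + s).toNat _ _ _ _ frameB _ _ _ _ hpos (by omega) hsol hprim
    ![(((g + s) + 2 * s) + (3 * (g + s) - 3 * s - m + e)) / 2,
      (((g + s) + 2 * s) - (3 * (g + s) - 3 * s - m + e)) / 2,
      (3 * (g + s) - 2 + (3 * (g + s) - 3 * s - m - e)) / 2,
      (3 * (g + s) - 2 - (3 * (g + s) - 3 * s - m - e)) / 2] (by
      intro i
      fin_cases i <;> simp <;> omega)
  refine ⟨_, _, hr, ?_⟩
  unfold curv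
  simp only [Matrix.cons_val_zero, Matrix.cons_val_one, Matrix.cons_val]
  omega

/-- **Every natural number is a curvature.** -/
theorem exists_curv (n : ℕ) : ∃ a t, Rt a t ∧ curv a t = n := by
  rcases Nat.even_or_odd' n with ⟨k, hk | hk⟩
  · rcases Nat.eq_zero_or_pos k with h0 | h0
    · refine ⟨![1, 1, 0, 0], 1, Rt.base _ (by decide), ?_⟩
      rw [hk, h0]
      decide
    · obtain ⟨a, t, h1, h2⟩ := even_curv (m := 2 * k + 1) (by omega) (by omega)
      exact ⟨a, t, h1, by rw [h2, hk]; push_cast; ring⟩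
  · obtain ⟨a, t, h1, h2⟩ := odd_curv (m := 2 * k + 3) (by omega) (by omega)
    exact ⟨a, t, h1, by rw [h2, hk]; push_cast; ring⟩

end Pool.Agent.Q247.AP
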