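import Mathlib

/-!
# Definitions: ball arrangement projections and Apollonian packings

All definitions used in the statement about the Apollonian sphere packing of the 24-cell.
-/

set_option autoImplicit false

namespace Pool.Agent.Q247.AP

/-- Euclidean 3-space. -/
abbrev E3 := EuclideanSpace ℝ (Fin 3)

/-- Euclidean 4-space. -/
abbrev E4 := EuclideanSpace ℝ (Fin 4)

/-- The north pole `N = (0, 0, 0, 1)`. -/
noncomputable def north : E4 := EuclideanSpace.single 3 1

/-- Stereographic projection of the unit sphere of `ℝ⁴` from the north pole onto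
`ℝ³ ∪ {∞}` (projection onto the equatorial hyperplane); the north pole goes to `∞`. -/
noncomputable def stereo (x : E4) : OnePoint E3 :=
  open scoped Classical in
  if x = north then OnePoint.infty
  else ((WithLp.toLp 2 (fun i : Fin 3 => x i.castSucc / (1 - x 3)) : E3) : OnePoint E3)

/-- The stereographic image of the cap `{x ∈ 𝕊³ : ⟨x, v⟩ ≥ 1}` visible from `v`. -/
def capImage (v : E4) : Set (OnePoint E3) := stereo '' {x : E4 | ‖x‖ = 1 ∧ 1 ≤ inner ℝ x v}

/-- The ball arrangement projection `𝖡(P)` of a convex polytope `P ⊆ ℝ⁴`: the images of the caps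
visible from the vertices (extreme points) of `P`. -/
def ballProj (P : Set E4) : Set (Set (OnePoint E3)) := capImage '' (P.extremePoints ℝ)

/-- The polar of `P` with respect to the unit sphere. -/
def polarBody (P : Set E4) : Set E4 := {y : E4 | ∀ x ∈ P, inner ℝ x y ≤ 1}

/-- The image of a subset of `ℝ³ ∪ {∞}` under the dilation by the factor `k`. -/
def dilate (k : ℝ) (S : Set (OnePoint E3)) : Set (OnePoint E3) :=
  (OnePoint.map fun x : E3 => k • x) '' S

/-- The 24 points `√(2/3) · (±1, ±1, 0, 0)` and permutations (an integer vector with sum of squares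
`2` is exactly a permutation of `(±1, ±1, 0, 0)`). -/
def stdRoots : Set E4 := {v : E4 | ∃ u : Fin 4 → ℤ, ∑ i, u i ^ 2 = 2 ∧ ∀ i, v i = √(2 / 3) * u i}

/-- The edge-scribed regular 24-cell in standard position: its vertices are the 24 points of
`stdRoots`, its edges join the vertices at distance `2/√3`, and the midpoints of the edges have
norm `1`. -/
def stdCell : Set E4 := convexHull ℝ stdRoots

/-- The edge-scribed regular 24-cells: the images of the standard one under linear isometries. -/
def IsEdgeScribedCell24 (R : Set E4) : Prop := ∃ A : E4 ≃ₗᵢ[ℝ] E4, R = A '' stdCell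

/-- `R` has an edge (two vertices at distance `2/√3`) whose midpoint lies on the ray from the
origin through the north pole. -/
def HasNorthEdge (R : Set E4) : Prop := ∃ v ∈ R.extremePoints ℝ, ∃ w ∈ R.extremePoints ℝ,
  dist v w = 2 / √3 ∧ ∃ s : ℝ, 0 < s ∧ midpoint ℝ v w = s • north

/-- The packing `𝓑`: the 1-CBP projection dilated by `1/√3`. -/
def pack (R : Set E4) : Set (Set (OnePoint E3)) := dilate (1 / √3) '' ballProj R

/-- The dual packing `𝓑*`: the same for the polar of `R`. -/
def dualPack (R : Set E4) : Set (Set (OnePoint E3)) := dilate (1 / √3) '' ballProj (polarBody R)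

/-- The closed ball, as a subset of `ℝ³ ∪ {∞}`. -/
def ballSet (m : E3) (r : ℝ) : Set (OnePoint E3) :=
  (fun x : E3 => (x : OnePoint E3)) '' Metric.closedBall m r

/-- The closure (in `ℝ³ ∪ {∞}`) of the complement of a ball: the complement of the open ball. -/
def coballSet (m : E3) (r : ℝ) : Set (OnePoint E3) :=
  ((fun x : E3 => (x : OnePoint E3)) '' Metric.ball m r)ᶜ

/-- The closed half-space `⟨n, x⟩ ≤ t`, together with `∞`. -/
def halfSet (n : E3) (t : ℝ) : Set (OnePoint E3) :=
  insert OnePoint.infty ((fun x : E3 => (x : OnePoint E3)) '' {x : E3 | inner ℝ n x ≤ t})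

/-- Curvature: `1/r` for a ball of radius `r`, `0` for a half-space, `-1/r` for the complement of a
ball of radius `r`. -/
inductive HasCurvature : Set (OnePoint E3) → ℝ → Prop
  | ball (m : E3) (r : ℝ) (hr : 0 < r) : HasCurvature (ballSet m r) (1 / r)
  | half (n : E3) (t : ℝ) (hn : ‖n‖ = 1) : HasCurvature (halfSet n t) 0
  | coball (m : E3) (r : ℝ) (hr : 0 < r) : HasCurvature (coballSet m r) (-(1 / r))

/-- The inversion of `ℝ³ ∪ {∞}` in the sphere with centre `m` and radius `r`. -/
noncomputable def sphereInv (m : E3) (r : ℝ) (p : OnePoint E3) : OnePoint E3 :=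
  open scoped Classical in
  p.elim ((m : E3) : OnePoint E3) (fun x : E3 =>
    if x = m then OnePoint.infty else ((EuclideanGeometry.inversion m r x : E3) : OnePoint E3))

/-- The reflection of `ℝ³ ∪ {∞}` in the plane `⟨n, x⟩ = t` (for a unit vector `n`). -/
noncomputable def planeRefl (n : E3) (t : ℝ) : OnePoint E3 → OnePoint E3 :=
  OnePoint.map fun x : E3 => x - (2 * (inner ℝ n x - t)) • n

/-- `IsInversionIn S g`: the permutation `g` of `ℝ³ ∪ {∞}` is the inversion in `S`, i.e. the
inversion in the boundary sphere of the ball (or complement of a ball) `S`, or the reflection in the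
boundary plane of the half-space `S`. -/
inductive IsInversionIn : Set (OnePoint E3) → Equiv.Perm (OnePoint E3) → Prop
  | ball (m : E3) (r : ℝ) (hr : 0 < r) (g : Equiv.Perm (OnePoint E3))
      (hg : ∀ p, g p = sphereInv m r p) : IsInversionIn (ballSet m r) g
  | half (n : E3) (t : ℝ) (hn : ‖n‖ = 1) (g : Equiv.Perm (OnePoint E3))
      (hg : ∀ p, g p = planeRefl n t p) : IsInversionIn (halfSet n t) g
  | coball (m : E3) (r : ℝ) (hr : 0 < r) (g : Equiv.Perm (OnePoint E3))
      (hg : ∀ p, g p = sphereInv m r p) : IsInversionIn (coballSet m r) g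

/-- The Apollonian group: generated by the inversions in the members of the dual packing. -/
def apolloGroup (R : Set E4) : Subgroup (Equiv.Perm (OnePoint E3)) :=
  Subgroup.closure {g | ∃ S ∈ dualPack R, IsInversionIn S g}

/-- The Apollonian packing `Ω(𝓑)`: the images of the members of `𝓑` under the Apollonian group. -/
def apolloPacking (R : Set E4) : Set (Set (OnePoint E3)) :=
  {S | ∃ g ∈ apolloGroup R, ∃ B ∈ pack R, S = g '' B}

end Pool.Agent.Q247.AP
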