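import Pool.Agent.Q247.AP.Defs

/-!
# Balls as Lorentz vectors

A generalized ball of `ℝ³ ∪ {∞}` is coded by `(a, b, c)`: it is the set
`a ‖x‖² - 2 ⟨b, x⟩ + c ≤ 0`, with `∞` in it if and only if `a ≤ 0`.
-/

set_option autoImplicit false

namespace Pool.Agent.Q247.AP

/-- Lorentz vectors. -/
@[ext] structure LV where
  /-- coefficient of `‖x‖²` -/
  a : ℝ
  /-- the vector -/
  b : E3
  /-- constant coefficient -/
  c : ℝ

namespace LV

/-- Lorentz product. -/
noncomputable def lor (V W : LV) : ℝ := inner ℝ V.b W.b - (V.a * W.c + V.c * W.a) / 2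

/-- Reflection of `V` in `W`. -/
noncomputable def refl (V W : LV) : LV :=
  ⟨V.a - 2 * V.lor W * W.a, V.b - (2 * V.lor W) • W.b, V.c - 2 * V.lor W * W.c⟩

/-- The quadratic function. -/
noncomputable def q (V : LV) (x : E3) : ℝ := V.a * ‖x‖ ^ 2 - 2 * inner ℝ V.b x + V.c

/-- The generalized ball. -/
def carrier (V : LV) : Set (OnePoint E3) :=
  {p | p.elim (V.a ≤ 0) (fun x => V.q x ≤ 0)}

@[simp] lemma infty_mem (V : LV) : (OnePoint.infty : OnePoint E3) ∈ V.carrier ↔ V.a ≤ 0 := Iff.rfl

@[simp] lemma coe_mem (V : LV) (x : E3) : (x : OnePoint E3) ∈ V.carrier ↔ V.q x ≤ 0 := Iff.rfl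

/-- The vector of the sphere with centre `m` and radius `r`. -/
noncomputable def ofSphere (m : E3) (r : ℝ) : LV := ⟨1 / r, (1 / r) • m, (‖m‖ ^ 2 - r ^ 2) / r⟩

/-- The opposite vector. -/
noncomputable def ofSphere' (m : E3) (r : ℝ) : LV :=
  ⟨-(1 / r), -((1 / r) • m), -((‖m‖ ^ 2 - r ^ 2) / r)⟩

/-- The vector of the half-space `⟨n, x⟩ ≤ t`. -/
noncomputable def ofPlane (n : E3) (t : ℝ) : LV := ⟨0, -n, -(2 * t)⟩

lemma ofSphere_q (m : E3) (r : ℝ) (x : E3) : (ofSphere m r).q x = (‖x - m‖ ^ 2 - r ^ 2) / r := by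
  unfold q ofSphere
  simp only [inner_smul_left]
  rw [@norm_sub_sq_real]
  have : inner ℝ m x = inner ℝ x m := real_inner_comm _ _
  rw [this]
  simp
  ring

lemma ofSphere'_q (m : E3) (r : ℝ) (x : E3) :
    (ofSphere' m r).q x = -((‖x - m‖ ^ 2 - r ^ 2) / r) := by
  unfold q ofSphere'
  simp only [inner_neg_left, inner_smul_left]
  rw [@norm_sub_sq_real]
  have : inner ℝ m x = inner ℝ x m := real_inner_comm _ _
  rw [this]
  simp
  ring

lemma ofSphere_lor (m : E3) {r : ℝ} (hr : 0 < r) : (ofSphere m r).lor (ofSphere m r) = 1 := by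
  unfold lor ofSphere
  simp only [inner_smul_left, inner_smul_right, real_inner_self_eq_norm_sq]
  simp
  field_simp
  ring

lemma ofSphere'_lor (m : E3) {r : ℝ} (hr : 0 < r) : (ofSphere' m r).lor (ofSphere' m r) = 1 := by
  unfold lor ofSphere'
  simp only [inner_neg_left, inner_neg_right, inner_smul_left, inner_smul_right,
    real_inner_self_eq_norm_sq]
  simp
  field_simp
  ring

lemma ofPlane_lor {n : E3} (hn : ‖n‖ = 1) (t : ℝ) : (ofPlane n t).lor (ofPlane n t) = 1 := by
  unfold lor ofPlane
  simp only [inner_neg_left, inner_neg_right, real_inner_self_eq_norm_sq, hn]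
  simp

lemma ofSphere_carrier (m : E3) {r : ℝ} (hr : 0 < r) :
    (ofSphere m r).carrier = ballSet m r := by
  ext p
  induction p using OnePoint.rec with
  | infty =>
    simp only [infty_mem, ballSet]
    constructor
    · intro h
      have : (0 : ℝ) < 1 / r := by positivity
      exact absurd h (not_le.2 this)
    · rintro ⟨x, -, hx⟩
      exact absurd hx (OnePoint.coe_ne_infty x)
  | coe x =>
    simp only [coe_mem, ballSet, ofSphere_q]
    rw [OnePoint.coe_injective.mem_set_image, mem_closedBall_iff_norm, div_le_iff₀ hr, zero_mul,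
      sub_nonpos]
    exact pow_le_pow_iff_left₀ (norm_nonneg _) hr.le (by norm_num)

lemma ofSphere'_carrier (m : E3) {r : ℝ} (hr : 0 < r) :
    (ofSphere' m r).carrier = coballSet m r := by
  ext p
  induction p using OnePoint.rec with
  | infty =>
    simp only [infty_mem, coballSet]
    constructor
    · rintro - ⟨x, -, hx⟩
      exact absurd hx (OnePoint.coe_ne_infty x)
    · intro _
      have : (0 : ℝ) < 1 / r := by positivity
      show -(1 / r) ≤ 0
      linarith
  | coe x =>
    simp only [coe_mem, coballSet, ofSphere'_q, Set.mem_compl_iff]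
    rw [OnePoint.coe_injective.mem_set_image, mem_ball_iff_norm, not_lt, neg_nonpos,
      le_div_iff₀ hr, zero_mul, sub_nonneg]
    exact pow_le_pow_iff_left₀ hr.le (norm_nonneg _) (by norm_num)

lemma ofPlane_carrier (n : E3) (t : ℝ) : (ofPlane n t).carrier = halfSet n t := by
  ext p
  induction p using OnePoint.rec with
  | infty => simp [halfSet, ofPlane]
  | coe x =>
    simp only [coe_mem, halfSet, ofPlane, q, inner_neg_left]
    rw [Set.mem_insert_iff, OnePoint.coe_injective.mem_set_image]
    simp only [OnePoint.coe_ne_infty, false_or, Set.mem_ofPred_eq]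
    constructor
    · intro h; linarith
    · intro h; linarith

/-- Trichotomy of normalized vectors. -/
lemma cases3 {V : LV} (h : V.lor V = 1) : (0 < V.a ∧ V = ofSphere ((1 / V.a) • V.b) (1 / V.a)) ∨
    (V.a = 0 ∧ ‖V.b‖ = 1 ∧ V = ofPlane (-V.b) (-(V.c / 2))) ∨
    (V.a < 0 ∧ V = ofSphere' ((1 / V.a) • V.b) (-(1 / V.a))) := by
  obtain ⟨a, b, c⟩ := V
  unfold lor at h
  simp only [real_inner_self_eq_norm_sq] at h
  rcases lt_trichotomy a 0 with ha | ha | ha
  · right; right
    refine ⟨ha, ?_⟩
    have hne : a ≠ 0 := ha.ne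
    unfold ofSphere'
    ext1
    · simp
    · simp only
      rw [smul_smul]
      have : (1 / -(1 / a)) * (1 / a) = -1 := by field_simp
      rw [this]; simp
    · simp only
      rw [norm_smul, Real.norm_eq_abs, mul_pow, sq_abs]
      field_simp
      nlinarith
  · right; left
    subst ha
    refine ⟨rfl, ?_, ?_⟩
    · have : ‖b‖ ^ 2 = 1 := by linarith
      have h0 := norm_nonneg b
      nlinarith
    · unfold ofPlane
      ext1
      · rfl
      · simp
      · simp only; ring
  · left
    refine ⟨ha, ?_⟩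
    have hne : a ≠ 0 := ha.ne'
    unfold ofSphere
    ext1
    · simp
    · simp only
      rw [smul_smul]
      have : (1 / (1 / a)) * (1 / a) = 1 := by field_simp
      rw [this]; simp
    · simp only
      rw [norm_smul, Real.norm_eq_abs, mul_pow, sq_abs]
      field_simp
      nlinarith

/-- A normalized vector has curvature `a`. -/
lemma hasCurvature {V : LV} (h : V.lor V = 1) : HasCurvature V.carrier V.a := by
  rcases cases3 h with ⟨ha, hV⟩ | ⟨ha, hb, hV⟩ | ⟨ha, hV⟩
  · have h1 := ofSphere_carrier ((1 / V.a) • V.b) (show (0 : ℝ) < 1 / V.a by positivity)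
    rw [← hV] at h1
    rw [h1]
    have := HasCurvature.ball ((1 / V.a) • V.b) (1 / V.a) (by positivity)
    rwa [one_div_one_div] at this
  · have h1 := ofPlane_carrier (-V.b) (-(V.c / 2))
    rw [← hV] at h1
    rw [h1, ha]
    exact HasCurvature.half _ _ (by rw [norm_neg]; exact hb)
  · have hpos : (0 : ℝ) < -(1 / V.a) := by
      have : 1 / V.a < 0 := one_div_neg.2 ha
      linarith
    have h1 := ofSphere'_carrier ((1 / V.a) • V.b) hpos
    rw [← hV] at h1
    rw [h1]
    have := HasCurvature.coball ((1 / V.a) • V.b) (-(1 / V.a)) hpos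
    have e : -(1 / -(1 / V.a)) = V.a := by
      have := ha.ne
      field_simp
    rwa [e] at this

lemma of_hasCurvature {S : Set (OnePoint E3)} {k : ℝ} (h : HasCurvature S k) :
    ∃ V : LV, V.lor V = 1 ∧ V.a = k ∧ V.carrier = S := by
  cases h with
  | ball m r hr => exact ⟨ofSphere m r, ofSphere_lor m hr, rfl, ofSphere_carrier m hr⟩
  | half n t hn => exact ⟨ofPlane n t, ofPlane_lor hn t, rfl, ofPlane_carrier n t⟩
  | coball m r hr => exact ⟨ofSphere' m r, ofSphere'_lor m hr, rfl, ofSphere'_carrier m hr⟩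

end LV

end Pool.Agent.Q247.AP
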