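import Pool.Agent.Q247.AP.Geo

/-!
# Uniqueness of the Lorentz vector, and inversions as Lorentz reflections
-/

set_option autoImplicit false

namespace Pool.Agent.Q247.AP

namespace LV

/-- Inclusion of closed balls. -/
lemma ball_sub {m m' : E3} {r r' : ℝ} (hr : 0 < r)
    (h : Metric.closedBall m r ⊆ Metric.closedBall m' r') : ‖m - m'‖ + r ≤ r' := by
  by_cases hm : m = m'
  · subst hm
    have hx : m + EuclideanSpace.single 0 r ∈ Metric.closedBall m r := by
      rw [mem_closedBall_iff_norm, add_sub_cancel_left, PiLp.norm_single,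
        Real.norm_eq_abs, abs_of_pos hr]
    have := h hx
    rw [mem_closedBall_iff_norm, add_sub_cancel_left, PiLp.norm_single,
        Real.norm_eq_abs, abs_of_pos hr] at this
    simpa using this
  · have hpos : 0 < ‖m - m'‖ := norm_pos_iff.2 (sub_ne_zero.2 hm)
    have hx : m + (r / ‖m - m'‖) • (m - m') ∈ Metric.closedBall m r := by
      rw [mem_closedBall_iff_norm, add_sub_cancel_left, norm_smul, Real.norm_eq_abs,
        abs_of_pos (by positivity)]
      field_simp
      exact le_refl _
    have h2 := h hx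
    rw [mem_closedBall_iff_norm] at h2
    have e : m + (r / ‖m - m'‖) • (m - m') - m' = (1 + r / ‖m - m'‖) • (m - m') := by
      rw [add_smul, one_smul]; abel
    rw [e, norm_smul, Real.norm_eq_abs, abs_of_pos (by positivity), add_mul,
      div_mul_cancel₀ _ hpos.ne'] at h2
    linarith

lemma ball_eq {m m' : E3} {r r' : ℝ} (hr : 0 < r) (hr' : 0 < r')
    (h : Metric.closedBall m r = Metric.closedBall m' r') : m = m' ∧ r = r' := by
  have h1 := ball_sub hr h.subset
  have h2 := ball_sub hr' h.symm.subset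
  have h3 : ‖m - m'‖ = ‖m' - m‖ := norm_sub_rev _ _
  have h4 := norm_nonneg (m - m')
  have h5 : ‖m - m'‖ = 0 := by linarith
  exact ⟨sub_eq_zero.1 (norm_eq_zero.1 h5), by linarith⟩

lemma half_sub {n n' : E3} {t t' : ℝ} (hn : ‖n‖ = 1) (hn' : ‖n'‖ = 1)
    (h : {x : E3 | inner ℝ n x ≤ t} ⊆ {x : E3 | inner ℝ n' x ≤ t'}) : n = n' ∧ t ≤ t' := by
  have hnn : inner ℝ n n = (1 : ℝ) := by rw [real_inner_self_eq_norm_sq, hn]; norm_num
  have hnn' : inner ℝ n' n' = (1 : ℝ) := by rw [real_inner_self_eq_norm_sq, hn']; norm_num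
  have hcomm : inner ℝ n' n = (inner ℝ n n' : ℝ) := real_inner_comm _ _
  -- direction `v` with `⟨n, v⟩ ≤ 0` has `⟨n', v⟩ ≤ 0`
  have hdir : ∀ v : E3, inner ℝ n v ≤ (0 : ℝ) → inner ℝ n' v ≤ (0 : ℝ) := by
    intro v hv
    by_contra hcon
    push Not at hcon
    set T : ℝ := (|t' - t * inner ℝ n' n| + 1) / inner ℝ n' v with hT
    have hTpos : 0 < T := by positivity
    have hx : (t • n + T • v) ∈ {x : E3 | inner ℝ n x ≤ t} := by
      show inner ℝ n (t • n + T • v) ≤ t
      rw [inner_add_right, inner_smul_right, inner_smul_right, hnn]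
      nlinarith
    have h2 := h hx
    have h3 : inner ℝ n' (t • n + T • v) ≤ t' := h2
    rw [inner_add_right, inner_smul_right, inner_smul_right, hT, div_mul_cancel₀ _ hcon.ne'] at h3
    have := le_abs_self (t' - t * inner ℝ n' n)
    linarith
  have h1 := hdir (n' - n) (by
    rw [inner_sub_right, hnn]
    have := real_inner_le_norm n n'
    rw [hn, hn'] at this
    linarith)
  rw [inner_sub_right, hnn', hcomm] at h1
  have h2 : inner ℝ n n' = (1 : ℝ) := by
    have := real_inner_le_norm n n'
    rw [hn, hn'] at this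
    linarith
  have h3 : ‖n - n'‖ ^ 2 = 0 := by
    rw [@norm_sub_sq_real, hn, hn', h2]; norm_num
  have h4 : n = n' := sub_eq_zero.1 (norm_eq_zero.1 (pow_eq_zero_iff (two_ne_zero) |>.1 h3))
  refine ⟨h4, ?_⟩
  have hx : (t • n) ∈ {x : E3 | inner ℝ n x ≤ t} := by
    show inner ℝ n (t • n) ≤ t
    rw [inner_smul_right, hnn]; linarith
  have h5 : inner ℝ n' (t • n) ≤ t' := h hx
  rw [inner_smul_right, hcomm, h2] at h5
  linarith

lemma ballSet_inj {m m' : E3} {r r' : ℝ} (hr : 0 < r) (hr' : 0 < r')
    (h : ballSet m r = ballSet m' r') : m = m' ∧ r = r' :=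
  ball_eq hr hr' (OnePoint.coe_injective.image_injective h)

lemma coballSet_inj {m m' : E3} {r r' : ℝ} (hr : 0 < r) (hr' : 0 < r')
    (h : coballSet m r = coballSet m' r') : m = m' ∧ r = r' := by
  have h1 := compl_injective h
  have h2 : Metric.ball m r = Metric.ball m' r' := OnePoint.coe_injective.image_injective h1
  apply ball_eq hr hr'
  rw [← closure_ball m hr.ne', ← closure_ball m' hr'.ne', h2]

lemma halfSet_inj {n n' : E3} {t t' : ℝ} (hn : ‖n‖ = 1) (hn' : ‖n'‖ = 1)
    (h : halfSet n t = halfSet n' t') : n = n' ∧ t = t' := by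
  have h1 : {x : E3 | inner ℝ n x ≤ t} = {x : E3 | inner ℝ n' x ≤ t'} := by
    ext x
    have h2 : ((x : E3) : OnePoint E3) ∈ halfSet n t ↔ ((x : E3) : OnePoint E3) ∈ halfSet n' t' := by
      rw [h]
    unfold halfSet at h2
    rw [Set.mem_insert_iff, OnePoint.coe_injective.mem_set_image, Set.mem_insert_iff,
      OnePoint.coe_injective.mem_set_image] at h2
    simpa using h2
  obtain ⟨e1, e2⟩ := half_sub hn hn' h1.subset
  obtain ⟨-, e3⟩ := half_sub hn' hn h1.symm.subset
  exact ⟨e1, le_antisymm e2 e3⟩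

/-- The Lorentz vector of a generalized ball is unique. -/
lemma carrier_inj {V W : LV} (hV : V.lor V = 1) (hW : W.lor W = 1)
    (h : V.carrier = W.carrier) : V = W := by
  have hinf : V.a ≤ 0 ↔ W.a ≤ 0 := by
    rw [← infty_mem, ← infty_mem, h]
  have hinfb : ∀ (m : E3) (r : ℝ), (OnePoint.infty : OnePoint E3) ∉ ballSet m r := by
    rintro m r ⟨x, -, hx⟩
    exact absurd hx (OnePoint.coe_ne_infty x)
  have half_co : ∀ (n m : E3) (t r : ℝ), ‖n‖ = 1 → 0 < r → halfSet n t ≠ coballSet m r := by
    intro n m t r hn hr hh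
    have hnn : inner ℝ n n = (1 : ℝ) := by rw [real_inner_self_eq_norm_sq, hn]; norm_num
    -- a far point outside the half-space
    set T : ℝ := |t - inner ℝ n m| + r with hT
    have hTpos : 0 < T := by positivity
    have h1 : ((m + T • n : E3) : OnePoint E3) ∈ coballSet m r := by
      unfold coballSet
      rw [Set.mem_compl_iff, OnePoint.coe_injective.mem_set_image, mem_ball_iff_norm,
        add_sub_cancel_left, norm_smul, hn, mul_one, Real.norm_eq_abs, abs_of_pos hTpos, not_lt]
      have := abs_nonneg (t - inner ℝ n m)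
      linarith
    rw [← hh] at h1
    unfold halfSet at h1
    rw [Set.mem_insert_iff, OnePoint.coe_injective.mem_set_image] at h1
    rcases h1 with h1 | h1
    · exact OnePoint.coe_ne_infty _ h1
    · have h2 : inner ℝ n (m + T • n) ≤ t := h1
      rw [inner_add_right, inner_smul_right, hnn] at h2
      have := le_abs_self (t - inner ℝ n m)
      linarith
  rcases cases3 hV with ⟨ha, eV⟩ | ⟨ha, hb, eV⟩ | ⟨ha, eV⟩
  · rcases cases3 hW with ⟨ha', eW⟩ | ⟨ha', hb', eW⟩ | ⟨ha', eW⟩
    · have p1 : (0 : ℝ) < 1 / V.a := by positivity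
      have p2 : (0 : ℝ) < 1 / W.a := by positivity
      have h1 := ofSphere_carrier ((1 / V.a) • V.b) p1
      have h2 := ofSphere_carrier ((1 / W.a) • W.b) p2
      rw [← eV] at h1
      rw [← eW] at h2
      rw [h1, h2] at h
      obtain ⟨e1, e2⟩ := ballSet_inj p1 p2 h
      rw [eV, eW, e1, e2]
    · exact absurd (hinf.2 ha'.le) (not_le.2 ha)
    · exact absurd (hinf.2 ha'.le) (not_le.2 ha)
  · rcases cases3 hW with ⟨ha', eW⟩ | ⟨ha', hb', eW⟩ | ⟨ha', eW⟩
    · exact absurd (hinf.1 ha.le) (not_le.2 ha')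
    · have h1 := ofPlane_carrier (-V.b) (-(V.c / 2))
      have h2 := ofPlane_carrier (-W.b) (-(W.c / 2))
      rw [← eV] at h1
      rw [← eW] at h2
      rw [h1, h2] at h
      obtain ⟨e1, e2⟩ := halfSet_inj (by rw [norm_neg]; exact hb) (by rw [norm_neg]; exact hb') h
      rw [eV, eW, e1, e2]
    · exfalso
      have hpos : (0 : ℝ) < -(1 / W.a) := by
        have : 1 / W.a < 0 := one_div_neg.2 ha'
        linarith
      have h1 := ofPlane_carrier (-V.b) (-(V.c / 2))
      have h2 := ofSphere'_carrier ((1 / W.a) • W.b) hpos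
      rw [← eV] at h1
      rw [← eW] at h2
      rw [h1, h2] at h
      exact half_co _ _ _ _ (by rw [norm_neg]; exact hb) hpos h
  · rcases cases3 hW with ⟨ha', eW⟩ | ⟨ha', hb', eW⟩ | ⟨ha', eW⟩
    · exact absurd (hinf.1 ha.le) (not_le.2 ha')
    · exfalso
      have hpos : (0 : ℝ) < -(1 / V.a) := by
        have : 1 / V.a < 0 := one_div_neg.2 ha
        linarith
      have h1 := ofPlane_carrier (-W.b) (-(W.c / 2))
      have h2 := ofSphere'_carrier ((1 / V.a) • V.b) hpos
      rw [← eW] at h1
      rw [← eV] at h2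
      rw [h1, h2] at h
      exact half_co _ _ _ _ (by rw [norm_neg]; exact hb') hpos h.symm
    · have p1 : (0 : ℝ) < -(1 / V.a) := by
        have : 1 / V.a < 0 := one_div_neg.2 ha
        linarith
      have p2 : (0 : ℝ) < -(1 / W.a) := by
        have : 1 / W.a < 0 := one_div_neg.2 ha'
        linarith
      have h1 := ofSphere'_carrier ((1 / V.a) • V.b) p1
      have h2 := ofSphere'_carrier ((1 / W.a) • W.b) p2
      rw [← eV] at h1
      rw [← eW] at h2
      rw [h1, h2] at h
      obtain ⟨e1, e2⟩ := coballSet_inj p1 p2 h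
      rw [eV, eW, e1, e2]

/-! ### Inversions -/

lemma refl_ofSphere' (V : LV) (m : E3) (r : ℝ) : V.refl (ofSphere' m r) = V.refl (ofSphere m r) := by
  unfold refl lor ofSphere ofSphere'
  ext1
  · simp only [inner_neg_right]; ring
  · simp only [inner_neg_right]
    rw [smul_neg, ← neg_smul]
    congr 2
    ring
  · simp only [inner_neg_right]; ring

/-- The value of the reflected quadratic function. -/
lemma q_refl (V W : LV) (x : E3) : (V.refl W).q x = V.q x - 2 * V.lor W * W.q x := by
  unfold q refl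
  simp only [inner_sub_left, inner_smul_left]
  simp
  ring

lemma sphereInv_infty (m : E3) (r : ℝ) :
    sphereInv m r OnePoint.infty = ((m : E3) : OnePoint E3) := rfl

lemma sphereInv_center (m : E3) (r : ℝ) : sphereInv m r (m : OnePoint E3) = OnePoint.infty := by
  unfold sphereInv
  simp

lemma sphereInv_coe {m x : E3} (r : ℝ) (h : x ≠ m) : sphereInv m r (x : OnePoint E3) =
    ((EuclideanGeometry.inversion m r x : E3) : OnePoint E3) := by
  unfold sphereInv
  simp [h]

lemma sphereInv_invol (m : E3) {r : ℝ} (hr : 0 < r) (p : OnePoint E3) :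
    sphereInv m r (sphereInv m r p) = p := by
  induction p using OnePoint.rec with
  | infty => rw [sphereInv_infty, sphereInv_center]
  | coe x =>
    by_cases h : x = m
    · subst h; rw [sphereInv_center, sphereInv_infty]
    · have h2 : EuclideanGeometry.inversion m r x ≠ m := by
        rw [Ne, EuclideanGeometry.inversion_eq_center hr.ne']
        exact h
      rw [sphereInv_coe r h, sphereInv_coe r h2, EuclideanGeometry.inversion_inversion m hr.ne']

/-- Membership of an inverted point. -/
lemma mem_sphereInv (V : LV) (m : E3) {r : ℝ} (hr : 0 < r) (p : OnePoint E3) :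
    sphereInv m r p ∈ V.carrier ↔ p ∈ (V.refl (ofSphere m r)).carrier := by
  have key : ∀ x : E3, (V.refl (ofSphere m r)).q x = V.q m * (‖x - m‖ ^ 2 / r ^ 2) +
      2 * V.a * inner ℝ m (x - m) - 2 * inner ℝ V.b (x - m) + V.a * r ^ 2 := by
    intro x
    rw [q_refl, ofSphere_q]
    obtain ⟨y, rfl⟩ : ∃ y, x = m + y := ⟨x - m, by abel⟩
    rw [add_sub_cancel_left]
    unfold lor q ofSphere
    simp only [inner_add_right, inner_smul_right]
    rw [@norm_add_sq_real]
    field_simp
    ring
  induction p using OnePoint.rec with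
  | infty =>
    rw [sphereInv_infty, coe_mem, infty_mem]
    have : (V.refl (ofSphere m r)).a = V.q m / r ^ 2 := by
      unfold refl lor q ofSphere
      simp only [inner_smul_right]
      field_simp
      ring
    rw [this, div_le_iff₀ (by positivity), zero_mul]
  | coe x =>
    by_cases h : x = m
    · subst h
      rw [sphereInv_center, infty_mem, coe_mem, key x]
      simp only [sub_self, norm_zero, inner_zero_right]
      have : (0 : ℝ) < r ^ 2 := by positivity
      have e0 : V.q x * (0 ^ 2 / r ^ 2) + 2 * V.a * 0 - 2 * 0 + V.a * r ^ 2 = V.a * r ^ 2 := by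
        simp
      rw [e0]
      constructor
      · intro h; nlinarith
      · intro h
        by_contra hcon
        push Not at hcon
        nlinarith
    · rw [sphereInv_coe r h, coe_mem, coe_mem, key x]
      have hpos : 0 < ‖x - m‖ ^ 2 := by
        have : 0 < ‖x - m‖ := norm_pos_iff.2 (sub_ne_zero.2 h)
        positivity
      have hinv : EuclideanGeometry.inversion m r x = m + (r ^ 2 / ‖x - m‖ ^ 2) • (x - m) := by
        unfold EuclideanGeometry.inversion
        rw [dist_eq_norm, div_pow, vsub_eq_sub, vadd_eq_add, add_comm]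
      have hne : ‖x - m‖ ≠ 0 := norm_ne_zero_iff.2 (sub_ne_zero.2 h)
      have hq : V.q (EuclideanGeometry.inversion m r x) = (r ^ 2 / ‖x - m‖ ^ 2) *
          (V.q m * (‖x - m‖ ^ 2 / r ^ 2) +
      2 * V.a * inner ℝ m (x - m) - 2 * inner ℝ V.b (x - m) + V.a * r ^ 2) := by
        rw [hinv]
        unfold q
        rw [@norm_add_sq_real, inner_add_right, inner_smul_right, inner_smul_right, norm_smul,
          Real.norm_eq_abs, mul_pow, sq_abs]
        field_simp
        ring
      rw [hq]
      have hc : 0 < r ^ 2 / ‖x - m‖ ^ 2 := by positivity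
      constructor
      · intro h
        by_contra hcon
        push Not at hcon
        have := mul_pos hc hcon
        linarith
      · intro h
        exact mul_nonpos_of_nonneg_of_nonpos hc.le h

lemma planeRefl_invol {n : E3} (hn : ‖n‖ = 1) (t : ℝ) (p : OnePoint E3) :
    planeRefl n t (planeRefl n t p) = p := by
  have hnn : inner ℝ n n = (1 : ℝ) := by rw [real_inner_self_eq_norm_sq, hn]; norm_num
  unfold planeRefl
  induction p using OnePoint.rec with
  | infty => simp
  | coe x =>
    simp only [OnePoint.map_some, OnePoint.some_eq_iff]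
    rw [inner_sub_right, inner_smul_right, hnn]
    have : inner ℝ n x - 2 * (inner ℝ n x - t) * 1 - t = -(inner ℝ n x - t) := by ring
    rw [this, mul_neg, neg_smul]
    abel

lemma mem_planeRefl (V : LV) {n : E3} (hn : ‖n‖ = 1) (t : ℝ) (p : OnePoint E3) :
    planeRefl n t p ∈ V.carrier ↔ p ∈ (V.refl (ofPlane n t)).carrier := by
  unfold planeRefl
  induction p using OnePoint.rec with
  | infty =>
    rw [OnePoint.map_infty, infty_mem, infty_mem]
    simp [refl, ofPlane]
  | coe x =>
    rw [OnePoint.map_some, coe_mem, coe_mem, q_refl]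
    have : V.q (x - (2 * (inner ℝ n x - t)) • n) =
        V.q x - 2 * V.lor (ofPlane n t) * (ofPlane n t).q x := by
      unfold q lor ofPlane
      rw [@norm_sub_sq_real, inner_sub_right]
      simp only [inner_smul_right, inner_neg_right, inner_neg_left, norm_smul, hn, mul_one,
        Real.norm_eq_abs, sq_abs]
      rw [real_inner_comm x n]
      ring
    rw [this]

/-- **Inversions act as Lorentz reflections.** -/
lemma image_of_isInversion {W : LV} (hW : W.lor W = 1) {g : Equiv.Perm (OnePoint E3)}
    (hg : IsInversionIn W.carrier g) :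
    (∀ V : LV, g '' V.carrier = (V.refl W).carrier) ∧ ∀ p, g (g p) = p := by
  have aux : ∀ (f : OnePoint E3 → OnePoint E3), (∀ p, g p = f p) → (∀ p, f (f p) = p) →
      (∀ (V : LV) p, f p ∈ V.carrier ↔ p ∈ (V.refl W).carrier) →
      (∀ V : LV, g '' V.carrier = (V.refl W).carrier) ∧ ∀ p, g (g p) = p := by
    intro f h1 h2 h3
    have hinv : ∀ p, g (g p) = p := fun p => by rw [h1, h1, h2]
    refine ⟨fun V => ?_, hinv⟩
    ext p
    constructor
    · rintro ⟨p', hp', rfl⟩
      rw [← h3, ← h1, hinv]
      exact hp'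
    · intro hp
      refine ⟨g p, ?_, hinv p⟩
      rw [h1, h3]
      exact hp
  generalize hS : W.carrier = S at hg
  cases hg with
  | ball m r hr g hg =>
    have e : W = ofSphere m r :=
      carrier_inj hW (ofSphere_lor m hr) (by rw [hS, ofSphere_carrier m hr])
    refine aux _ hg (sphereInv_invol m hr) (fun V p => ?_)
    rw [e]
    exact mem_sphereInv V m hr p
  | half n t hn g hg =>
    have e : W = ofPlane n t :=
      carrier_inj hW (ofPlane_lor hn t) (by rw [hS, ofPlane_carrier n t])
    refine aux _ hg (planeRefl_invol hn t) (fun V p => ?_)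
    rw [e]
    exact mem_planeRefl V hn t p
  | coball m r hr g hg =>
    have e : W = ofSphere' m r :=
      carrier_inj hW (ofSphere'_lor m hr) (by rw [hS, ofSphere'_carrier m hr])
    refine aux _ hg (sphereInv_invol m hr) (fun V p => ?_)
    rw [e, refl_ofSphere']
    exact mem_sphereInv V m hr p

/-- Every generalized ball has an inversion. -/
lemma exists_inversion {W : LV} (hW : W.lor W = 1) :
    ∃ g : Equiv.Perm (OnePoint E3), IsInversionIn W.carrier g := by
  rcases cases3 hW with ⟨ha, eV⟩ | ⟨ha, hb, eV⟩ | ⟨ha, eV⟩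
  · have p1 : (0 : ℝ) < 1 / W.a := by positivity
    have h1 := ofSphere_carrier ((1 / W.a) • W.b) p1
    rw [← eV] at h1
    rw [h1]
    exact ⟨⟨sphereInv _ _, sphereInv _ _, sphereInv_invol _ p1, sphereInv_invol _ p1⟩,
      IsInversionIn.ball _ _ p1 _ (fun p => rfl)⟩
  · have h1 := ofPlane_carrier (-W.b) (-(W.c / 2))
    rw [← eV] at h1
    rw [h1]
    have hb' : ‖-W.b‖ = 1 := by rw [norm_neg]; exact hb
    exact ⟨⟨planeRefl _ _, planeRefl _ _, planeRefl_invol hb' _, planeRefl_invol hb' _⟩,
      IsInversionIn.half _ _ hb' _ (fun p => rfl)⟩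
  · have p1 : (0 : ℝ) < -(1 / W.a) := by
      have : 1 / W.a < 0 := one_div_neg.2 ha
      linarith
    have h1 := ofSphere'_carrier ((1 / W.a) • W.b) p1
    rw [← eV] at h1
    rw [h1]
    exact ⟨⟨sphereInv _ _, sphereInv _ _, sphereInv_invol _ p1, sphereInv_invol _ p1⟩,
      IsInversionIn.coball _ _ p1 _ (fun p => rfl)⟩

end LV

end Pool.Agent.Q247.AP
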