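import Pool.Agent.Q247.AP.Poly2
import Pool.Agent.Q247.AP.Curv

/-!
# The curvatures of the Apollonian packing of the 24-cell
-/

set_option autoImplicit false

namespace Pool.Agent.Q247.AP

open Finset

/-- Integer vectors in `ℝ⁴`. -/
noncomputable def emb (a : Fin 4 → ℤ) : E4 := WithLp.toLp 2 (fun i => (a i : ℝ))

lemma emb_apply (a : Fin 4 → ℤ) (i : Fin 4) : emb a i = (a i : ℝ) := rfl

lemma inner_emb (a b : Fin 4 → ℤ) : inner ℝ (emb a) (emb b) = ((∑ i, a i * b i : ℤ) : ℝ) := by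
  rw [inner_sum]
  push_cast
  rfl

lemma emb_step (a w : Fin 4 → ℤ) (k : ℤ) :
    emb (fun i => a i + 3 * k * w i) = emb a + (3 * k : ℝ) • emb w := by
  ext i
  simp [emb]

/-- The Lorentz vector of the member `(a, t)`. -/
noncomputable def memb (A : E4 ≃ₗᵢ[ℝ] E4) (a : Fin 4 → ℤ) (t : ℤ) : LV :=
  capLV (1 / √3) (√2 • A (emb a)) (√3 * t)

/-- The Lorentz vector of the dual member `w`. -/
noncomputable def dualv (A : E4 ≃ₗᵢ[ℝ] E4) (w : Fin 4 → ℤ) : LV :=
  capLV (1 / √3) ((√3 / 2) • A (emb w)) (√2)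

lemma k_ne : (1 / √3 : ℝ) ≠ 0 := by positivity

lemma sq2 : (√2 : ℝ) ^ 2 = 2 := Real.sq_sqrt (by norm_num)
lemma sq3 : (√3 : ℝ) ^ 2 = 3 := Real.sq_sqrt (by norm_num)

lemma memb_lor (A : E4 ≃ₗᵢ[ℝ] E4) {a : Fin 4 → ℤ} {t : ℤ}
    (h : 2 * ∑ i, a i ^ 2 = 3 * t ^ 2 + 1) : (memb A a t).lor (memb A a t) = 1 := by
  unfold memb
  rw [lor_capLV k_ne, inner_smul_left, inner_smul_right, A.inner_map_map, inner_emb]
  simp only [conj_trivial]
  have h' : 2 * ((∑ i, a i * a i : ℤ) : ℝ) = 3 * (t : ℝ) ^ 2 + 1 := by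
    have : 2 * ∑ i, a i * a i = 3 * t ^ 2 + 1 := by
      rw [← h]
      simp only [pow_two]
    exact_mod_cast this
  have h2 := sq2
  have h3 := sq3
  linear_combination h' + ((∑ i, a i * a i : ℤ) : ℝ) * h2 - (t : ℝ) ^ 2 * h3

lemma dualv_lor (A : E4 ≃ₗᵢ[ℝ] E4) {w : Fin 4 → ℤ} (h : ∑ i, w i ^ 2 = 4) :
    (dualv A w).lor (dualv A w) = 1 := by
  unfold dualv
  rw [lor_capLV k_ne, inner_smul_left, inner_smul_right, A.inner_map_map, inner_emb]
  simp only [conj_trivial]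
  have h' : ((∑ i, w i * w i : ℤ) : ℝ) = 4 := by
    have : ∑ i, w i * w i = 4 := by
      rw [← h]
      simp only [pow_two]
    exact_mod_cast this
  have h2 := sq2
  have h3 := sq3
  rw [h']
  linear_combination h3 - h2

/-- The reflection of a member in a dual member. -/
lemma memb_refl (A : E4 ≃ₗᵢ[ℝ] E4) (a w : Fin 4 → ℤ) (t k : ℤ)
    (hk : 2 * k = 2 * t - ∑ i, a i * w i) :
    (memb A a t).refl (dualv A w) = memb A (fun i => a i + 3 * k * w i) (t + 4 * k) := by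
  unfold memb dualv
  rw [refl_capLV k_ne, inner_smul_left, inner_smul_right, A.inner_map_map, inner_emb, emb_step,
    map_add, map_smul]
  simp only [conj_trivial]
  have h2 := sq2
  have h3 := sq3
  have hk' : ((∑ i, a i * w i : ℤ) : ℝ) = 2 * (t : ℝ) - 2 * k := by
    have : ∑ i, a i * w i = 2 * t - 2 * k := by linarith
    rw [this]
    push_cast
    ring
  rw [hk']
  have e1 : √2 * (√3 / 2 * (2 * (t : ℝ) - 2 * k)) - √3 * t * √2 = -(√2 * √3 * k) := by ring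
  rw [e1]
  congr 1
  · rw [smul_add, smul_smul, smul_smul, sub_eq_add_neg, ← neg_smul]
    congr 2
    linear_combination (√2 * k) * h3
  · push_cast
    linear_combination (2 * √3 * k) * h2

lemma pack_eq (A : E4 ≃ₗᵢ[ℝ] E4) : pack (A '' stdCell) =
    {S | ∃ u : Fin 4 → ℤ, ∑ i, u i ^ 2 = 2 ∧ S = (memb A u 1).carrier} := by
  have key : ∀ (x : E4) (u : Fin 4 → ℤ), (∀ i, x i = √(2 / 3) * u i) →
      dilate (1 / √3) (capImage (A x)) = (memb A u 1).carrier := by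
    intro x u h
    rw [dilate_capImage (by positivity) (show (0 : ℝ) < √3 by positivity)]
    have hx : x = √(2 / 3) • emb u := by
      ext i
      rw [h i]; rfl
    unfold memb
    rw [hx, map_smul, smul_smul]
    have : (√3 : ℝ) * √(2 / 3) = √2 := by
      rw [← Real.sqrt_mul (by norm_num)]
      norm_num
    rw [this]
    simp
  unfold pack ballProj
  rw [extreme_general]
  ext S
  constructor
  · rintro ⟨_, ⟨_, ⟨x, ⟨u, hu, h⟩, rfl⟩, rfl⟩, rfl⟩
    exact ⟨u, hu, key x u h⟩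
  · rintro ⟨u, hu, rfl⟩
    refine ⟨_, ⟨A (WithLp.toLp 2 (fun i => √(2 / 3) * (u i : ℝ))), ⟨_, ⟨u, hu, fun i => rfl⟩, rfl⟩,
      rfl⟩, ?_⟩
    exact key _ u (fun i => rfl)

lemma dualPack_eq (A : E4 ≃ₗᵢ[ℝ] E4) : dualPack (A '' stdCell) =
    {S | ∃ w : Fin 4 → ℤ, ∑ i, w i ^ 2 = 4 ∧ S = (dualv A w).carrier} := by
  have key : ∀ (x : E4) (w : Fin 4 → ℤ), (∀ i, x i = √(3 / 2) / 2 * w i) →
      dilate (1 / √3) (capImage (A x)) = (dualv A w).carrier := by
    intro x w h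
    rw [dilate_capImage (by positivity) (show (0 : ℝ) < √2 by positivity)]
    have hx : x = (√(3 / 2) / 2) • emb w := by
      ext i
      rw [h i]; rfl
    unfold dualv
    rw [hx, map_smul, smul_smul]
    have : (√2 : ℝ) * (√(3 / 2) / 2) = √3 / 2 := by
      have h1 : (√2 : ℝ) * √(3 / 2) = √3 := by
        rw [← Real.sqrt_mul (by norm_num)]
        norm_num
      rw [← h1]; ring
    rw [this]
  unfold dualPack ballProj
  rw [extreme_polar_general]
  ext S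
  constructor
  · rintro ⟨_, ⟨_, ⟨x, ⟨w, hw, h⟩, rfl⟩, rfl⟩, rfl⟩
    exact ⟨w, hw, key x w h⟩
  · rintro ⟨w, hw, rfl⟩
    refine ⟨_, ⟨A (WithLp.toLp 2 (fun i => √(3 / 2) / 2 * (w i : ℝ))),
      ⟨_, ⟨w, hw, fun i => rfl⟩, rfl⟩, rfl⟩, ?_⟩
    exact key _ w (fun i => rfl)

/-- `g` maps members to members. -/
def Good' (A : E4 ≃ₗᵢ[ℝ] E4) (g : Equiv.Perm (OnePoint E3)) : Prop :=
  ∀ a t, Rt a t → ∃ a' t', Rt a' t' ∧ g '' (memb A a t).carrier = (memb A a' t').carrier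

lemma good_gen (A : E4 ≃ₗᵢ[ℝ] E4) {g : Equiv.Perm (OnePoint E3)}
    (hg : ∃ S ∈ dualPack (A '' stdCell), IsInversionIn S g) : Good' A g ∧ Good' A g⁻¹ := by
  obtain ⟨S, hS, hgS⟩ := hg
  rw [dualPack_eq] at hS
  obtain ⟨w, hw, rfl⟩ := hS
  obtain ⟨h1, h2⟩ := LV.image_of_isInversion (dualv_lor A hw) hgS
  have h3 : Good' A g := by
    intro a t hr
    obtain ⟨i1, i2, i3⟩ := hr.inv
    obtain ⟨s, hs⟩ := even_dot a w i1 hw
    refine ⟨_, _, Rt.step a t w (t - s) hr hw (by rw [hs]; ring), ?_⟩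
    rw [h1, memb_refl A a w t (t - s) (by rw [hs]; ring)]
  have h4 : g⁻¹ = g := by
    ext1 p
    rw [Equiv.Perm.inv_eq_iff_eq]
    exact (h2 p).symm
  exact ⟨h3, by rw [h4]; exact h3⟩

lemma good_group (A : E4 ≃ₗᵢ[ℝ] E4) {g : Equiv.Perm (OnePoint E3)}
    (hg : g ∈ apolloGroup (A '' stdCell)) : Good' A g ∧ Good' A g⁻¹ := by
  unfold apolloGroup at hg
  induction hg using Subgroup.closure_induction with
  | mem g hg => exact good_gen A hg
  | one =>
    have : Good' A 1 := fun a t hr => ⟨a, t, hr, by simp⟩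
    exact ⟨this, by simpa using this⟩
  | mul g h _ _ ihg ihh =>
    have hcomp : ∀ g h : Equiv.Perm (OnePoint E3), Good' A g → Good' A h → Good' A (g * h) := by
      intro g h hg hh a t hr
      obtain ⟨a1, t1, hr1, e1⟩ := hh a t hr
      obtain ⟨a2, t2, hr2, e2⟩ := hg a1 t1 hr1
      refine ⟨a2, t2, hr2, ?_⟩
      rw [Equiv.Perm.coe_mul, Set.image_comp, e1, e2]
    refine ⟨hcomp g h ihg.1 ihh.1, ?_⟩
    rw [mul_inv_rev]
    exact hcomp _ _ ihh.2 ihg.2
  | inv g _ ih => exact ⟨ih.2, by rw [inv_inv]; exact ih.1⟩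

/-- Every member of the integer model is a member of the packing. -/
lemma reach (A : E4 ≃ₗᵢ[ℝ] E4) {a : Fin 4 → ℤ} {t : ℤ} (h : Rt a t) :
    (memb A a t).carrier ∈ apolloPacking (A '' stdCell) := by
  induction h with
  | base u hu =>
    refine ⟨1, Subgroup.one_mem _, (memb A u 1).carrier, ?_, by simp⟩
    rw [pack_eq]
    exact ⟨u, hu, rfl⟩
  | step a t w k hr hw hk ih =>
    obtain ⟨g, hg, B, hB, hgB⟩ := ih
    obtain ⟨f, hf⟩ := LV.exists_inversion (dualv_lor A hw)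
    have hfm : f ∈ apolloGroup (A '' stdCell) := by
      apply Subgroup.subset_closure
      refine ⟨(dualv A w).carrier, ?_, hf⟩
      rw [dualPack_eq]
      exact ⟨w, hw, rfl⟩
    obtain ⟨h1, -⟩ := LV.image_of_isInversion (dualv_lor A hw) hf
    refine ⟨f * g, Subgroup.mul_mem _ hfm hg, B, hB, ?_⟩
    rw [Equiv.Perm.coe_mul, Set.image_comp, ← hgB, h1, memb_refl A a w t k hk]

lemma packing_eq (A : E4 ≃ₗᵢ[ℝ] E4) : apolloPacking (A '' stdCell) =
    {S | ∃ a t, Rt a t ∧ S = (memb A a t).carrier} := by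
  ext S
  constructor
  · rintro ⟨g, hg, B, hB, rfl⟩
    rw [pack_eq] at hB
    obtain ⟨u, hu, rfl⟩ := hB
    obtain ⟨a', t', hr, e⟩ := (good_group A hg).1 u 1 (Rt.base u hu)
    exact ⟨a', t', hr, e⟩
  · rintro ⟨a, t, hr, rfl⟩
    exact reach A hr

/-! ### Signed permutations -/

lemma Rt.signed {a : Fin 4 → ℤ} {t : ℤ} (h : Rt a t) (σ : Equiv.Perm (Fin 4)) (e : Fin 4 → ℤ)
    (he : ∀ i, e i ^ 2 = 1) : Rt (fun i => e i * a (σ i)) t := by
  induction h with
  | base u hu =>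
    apply Rt.base
    rw [← hu, ← Equiv.sum_comp σ (fun i => u i ^ 2)]
    apply Finset.sum_congr rfl
    intro i _
    rw [mul_pow, he, one_mul]
  | step a t w k hr hw hk ih =>
    have h1 := Rt.step _ t (fun i => e i * w (σ i)) k ih (by
      rw [← hw, ← Equiv.sum_comp σ (fun i => w i ^ 2)]
      apply Finset.sum_congr rfl
      intro i _
      rw [mul_pow, he, one_mul]) (by
      rw [hk, ← Equiv.sum_comp σ (fun i => a i * w i)]
      congr 1
      apply Finset.sum_congr rfl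
      intro i _
      have := he i
      linear_combination (-(a (σ i) * w (σ i))) * this)
    have e1 : (fun i => e i * (a (σ i) + 3 * k * w (σ i))) =
        (fun i => (fun i => e i * a (σ i)) i + 3 * k * (fun i => e i * w (σ i)) i) := by
      funext i; ring
    rw [e1]
    exact h1

lemma six_aux : ∀ n : Fin 4 → Fin 3, ∑ i, ((n i : ℕ)) ^ 2 = 6 →
    ∃ σ : Equiv.Perm (Fin 4), ∀ i, ((n i : ℕ)) = (![2, 1, 1, 0] : Fin 4 → ℕ) (σ i) := by
  decide +kernel

lemma six {c : Fin 4 → ℤ} (hc : ∑ i, c i ^ 2 = 6) : ∃ (σ : Equiv.Perm (Fin 4)) (e : Fin 4 → ℤ),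
    (∀ i, e i ^ 2 = 1) ∧ ∀ i, c i = e i * (![2, 1, 1, 0] : Fin 4 → ℤ) (σ i) := by
  have hb : ∀ i, (c i).natAbs < 3 := by
    intro i
    have h1 : c i ^ 2 ≤ 6 := by
      rw [← hc]
      exact Finset.single_le_sum (f := fun i => c i ^ 2) (fun k _ => sq_nonneg _)
        (Finset.mem_univ i)
    have h2 : c i < 3 := by nlinarith
    have h3 : -3 < c i := by nlinarith
    omega
  obtain ⟨σ, hσ⟩ := six_aux (fun i => ⟨(c i).natAbs, hb i⟩) (by
    zify
    rw [← hc]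
    apply Finset.sum_congr rfl
    intro i _
    simp)
  have hsgn : ∀ i, ∃ e : ℤ, e ^ 2 = 1 ∧ c i = e * ((c i).natAbs : ℤ) := by
    intro i
    rcases le_total 0 (c i) with h | h
    · exact ⟨1, by norm_num, by omega⟩
    · exact ⟨-1, by norm_num, by omega⟩
  choose e he1 he2 using hsgn
  refine ⟨σ, e, he1, ?_⟩
  intro i
  rw [he2 i]
  congr 1
  have h1 := hσ i
  simp only at h1
  rw [h1]
  generalize σ i = j
  fin_cases j <;> rfl

/-- Nonnegativity of the curvature functional for a general edge. -/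
lemma Rt.dot_le {a : Fin 4 → ℤ} {t : ℤ} (h : Rt a t) {c : Fin 4 → ℤ} (hc : ∑ i, c i ^ 2 = 6) :
    0 ≤ 3 * t - ∑ i, c i * a i := by
  obtain ⟨-, h2, h3⟩ := h.inv
  have hcs : (∑ i, c i * a i) ^ 2 ≤ (∑ i, c i ^ 2) * ∑ i, a i ^ 2 :=
    Finset.sum_mul_sq_le_sq_mul_sq _ _ _
  rw [hc] at hcs
  set D := ∑ i, c i * a i with hD
  by_contra hcon
  push Not at hcon
  have h4 : 3 * t + 1 ≤ D := by linarith
  have h5 : D ^ 2 ≤ 9 * t ^ 2 + 3 := by linarith
  nlinarith

/-- All curvatures of the integer model, for a general edge. -/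
lemma curvatures_general {c : Fin 4 → ℤ} (hc : ∑ i, c i ^ 2 = 6) (n : ℕ) :
    ∃ a t, Rt a t ∧ 3 * t - ∑ i, c i * a i = n := by
  obtain ⟨σ, e, he, hce⟩ := six hc
  obtain ⟨a, t, hr, h⟩ := exists_curv n
  refine ⟨fun i => e i * a (σ i), t, hr.signed σ e he, ?_⟩
  rw [← h]
  unfold curv
  have h1 : ∑ i, c i * (e i * a (σ i)) = ∑ i, (![2, 1, 1, 0] : Fin 4 → ℤ) i * a i := by
    rw [← Equiv.sum_comp σ (fun i => (![2, 1, 1, 0] : Fin 4 → ℤ) i * a i)]
    apply Finset.sum_congr rfl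
    intro i _
    rw [hce i]
    have := he i
    linear_combination ((![2, 1, 1, 0] : Fin 4 → ℤ) (σ i) * a (σ i)) * this
  rw [h1, Fin.sum_univ_four]
  simp

/-- The edge vector. -/
lemma north_edge (A : E4 ≃ₗᵢ[ℝ] E4) (h : HasNorthEdge (A '' stdCell)) :
    ∃ c : Fin 4 → ℤ, ∑ i, c i ^ 2 = 6 ∧ A (emb c) = √6 • north := by
  obtain ⟨v, hv, w, hw, hd, s, hs, hm⟩ := h
  rw [extreme_general] at hv hw
  obtain ⟨x, ⟨u, hu, hxu⟩, rfl⟩ := hv
  obtain ⟨y, ⟨u', hu', hyu⟩, rfl⟩ := hw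
  have hx : x = √(2 / 3) • emb u := by
    ext i
    rw [hxu i]; rfl
  have hy : y = √(2 / 3) • emb u' := by
    ext i
    rw [hyu i]; rfl
  have h23 := sq23
  -- the squared distance
  have hd2 : ∑ i, (u i - u' i) ^ 2 = 2 := by
    rw [A.dist_map] at hd
    have h1 : ‖x - y‖ ^ 2 = 4 / 3 := by
      rw [← dist_eq_norm, hd, div_pow, sq3]; norm_num
    rw [normsq4] at h1
    simp only [PiLp.sub_apply, hxu, hyu] at h1
    have h2 : (√(2 / 3) : ℝ) ^ 2 * (((u 0 : ℝ) - u' 0) ^ 2 + ((u 1 : ℝ) - u' 1) ^ 2 +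
        ((u 2 : ℝ) - u' 2) ^ 2 + ((u 3 : ℝ) - u' 3) ^ 2) = 4 / 3 := by
      rw [← h1]; ring
    rw [h23] at h2
    have h3 : ((u 0 : ℝ) - u' 0) ^ 2 + ((u 1 : ℝ) - u' 1) ^ 2 +
        ((u 2 : ℝ) - u' 2) ^ 2 + ((u 3 : ℝ) - u' 3) ^ 2 = 2 := by linarith
    rw [Fin.sum_univ_four]
    exact_mod_cast h3
  have hc : ∑ i, (u i + u' i) ^ 2 = 6 := by
    rw [Fin.sum_univ_four] at *
    linarith
  refine ⟨fun i => u i + u' i, hc, ?_⟩
  have hmid : (√(2 / 3) / 2) • A (emb (fun i => u i + u' i)) = s • north := by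
    rw [← hm, midpoint_eq_smul_add, ← map_add, hx, hy, ← smul_add, map_smul, smul_smul]
    have e1 : emb (fun i => u i + u' i) = emb u + emb u' := by
      ext i
      simp [emb]
    rw [e1]
    congr 1
    rw [invOf_eq_inv]
    ring
  have hnorm : ‖emb (fun i => u i + u' i)‖ = √6 := by
    have h1 : ‖emb (fun i => u i + u' i)‖ ^ 2 = 6 := by
      rw [← real_inner_self_eq_norm_sq, inner_emb]
      have : ∑ i, (u i + u' i) * (u i + u' i) = 6 := by
        rw [← hc]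
        simp only [pow_two]
      rw [this]
      norm_num
    rw [← h1, Real.sqrt_sq (norm_nonneg _)]
  have h6 : (√(2 / 3) / 2 : ℝ) * √6 = 1 := by
    have : (√(2 / 3) : ℝ) * √6 = 2 := by
      rw [← Real.sqrt_mul (by norm_num)]
      rw [show (2 / 3 : ℝ) * 6 = 2 ^ 2 by norm_num]
      exact Real.sqrt_sq (by norm_num)
    linarith
  have hpos : (0 : ℝ) < √(2 / 3) / 2 := by have := s23_pos; positivity
  have hs1 : s = 1 := by
    have h1 := congrArg (fun z : E4 => ‖z‖) hmid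
    simp only [norm_smul, Real.norm_eq_abs, A.norm_map, norm_north, mul_one] at h1
    rw [abs_of_pos hpos, abs_of_pos hs, hnorm, h6] at h1
    exact h1.symm
  rw [hs1, one_smul] at hmid
  have h7 : √6 • ((√(2 / 3) / 2) • A (emb (fun i => u i + u' i))) = √6 • north := by rw [hmid]
  rw [smul_smul, mul_comm, h6, one_smul] at h7
  exact h7

/-- The curvature of a member. -/
lemma memb_a (A : E4 ≃ₗᵢ[ℝ] E4) {c : Fin 4 → ℤ} (hA : A (emb c) = √6 • north)
    (a : Fin 4 → ℤ) (t : ℤ) : (memb A a t).a = ((3 * t - ∑ i, c i * a i : ℤ) : ℝ) := by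
  have h1 : √6 * (A (emb a)) 3 = ((∑ i, c i * a i : ℤ) : ℝ) := by
    rw [← inner_emb, ← A.inner_map_map, hA, inner_smul_left, inner_north]
    simp
  have h2 := sq2
  have h3 := sq3
  have h6 : (√3 : ℝ) * √2 = √6 := by
    rw [← Real.sqrt_mul (by norm_num)]
    norm_num
  unfold memb capLV
  simp only [PiLp.smul_apply, smul_eq_mul]
  push_cast at h1 ⊢
  rw [← h1, ← h6]
  have hne : (√3 : ℝ) ≠ 0 := by positivity
  field_simp
  linear_combination (t : ℝ) * h3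

/-- **The curvatures of the Apollonian packing of the 24-cell are exactly the natural numbers.** -/
theorem curvatures {R : Set E4} (hR : IsEdgeScribedCell24 R) (hN : HasNorthEdge R) :
    {k : ℝ | ∃ S ∈ apolloPacking R, HasCurvature S k} = Set.range (fun n : ℕ => (n : ℝ)) := by
  obtain ⟨A, rfl⟩ := hR
  obtain ⟨c, hc, hA⟩ := north_edge A hN
  rw [packing_eq]
  ext k
  constructor
  · rintro ⟨S, ⟨a, t, hr, rfl⟩, hk⟩
    obtain ⟨V, hV1, hV2, hV3⟩ := LV.of_hasCurvature hk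
    have hm := memb_lor A hr.inv.2.1
    have : V = memb A a t := LV.carrier_inj hV1 hm hV3
    rw [this, memb_a A hA] at hV2
    have h0 := hr.dot_le hc
    refine ⟨(3 * t - ∑ i, c i * a i).toNat, ?_⟩
    rw [← hV2]
    show (((3 * t - ∑ i, c i * a i).toNat : ℕ) : ℝ) = _
    have h1 : (((3 * t - ∑ i, c i * a i).toNat : ℕ) : ℤ) = 3 * t - ∑ i, c i * a i :=
      Int.toNat_of_nonneg h0
    have h2 : (((3 * t - ∑ i, c i * a i).toNat : ℕ) : ℝ) =
        ((((3 * t - ∑ i, c i * a i).toNat : ℕ) : ℤ) : ℝ) := by push_cast; rfl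
    rw [h2, h1]
  · rintro ⟨n, rfl⟩
    obtain ⟨a, t, hr, h⟩ := curvatures_general hc n
    refine ⟨_, ⟨a, t, hr, rfl⟩, ?_⟩
    have h1 := LV.hasCurvature (memb_lor A hr.inv.2.1)
    rw [memb_a A hA, h] at h1
    simpa using h1

/-- Every member of the packing has exactly one curvature. -/
theorem unique_curvature {R : Set E4} (hR : IsEdgeScribedCell24 R) :
    ∀ S ∈ apolloPacking R, ∃! k : ℝ, HasCurvature S k := by
  obtain ⟨A, rfl⟩ := hR
  intro S hS
  rw [packing_eq] at hS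
  obtain ⟨a, t, hr, rfl⟩ := hS
  have hm := memb_lor A hr.inv.2.1
  refine ⟨_, LV.hasCurvature hm, ?_⟩
  intro k hk
  obtain ⟨V, hV1, hV2, hV3⟩ := LV.of_hasCurvature hk
  have : V = memb A a t := LV.carrier_inj hV1 hm hV3
  rw [← hV2, this]

/-- Such 24-cells exist. -/
theorem exists_cell : ∃ R, IsEdgeScribedCell24 R ∧ HasNorthEdge R := by
  set m0 : E4 := (√(2 / 3) / 2) • emb ![2, 1, 1, 0] with hm0
  have hpos : (0 : ℝ) < √(2 / 3) / 2 := by have := s23_pos; positivity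
  have h23 := sq23
  have hn : ‖m0‖ = ‖north‖ := by
    rw [norm_north]
    have h1 : ‖m0‖ ^ 2 = 1 := by
      rw [hm0, normsq4]
      simp only [PiLp.smul_apply, emb_apply, smul_eq_mul]
      clear_value m0
      generalize √(2 / 3) = r at h23 ⊢
      simp
      linear_combination (3 / 2 : ℝ) * h23
    have h0 := norm_nonneg m0
    nlinarith
  set A : E4 ≃ₗᵢ[ℝ] E4 := Submodule.reflection (ℝ ∙ (m0 - north))ᗮ with hAdef
  have hA : A m0 = north := Submodule.reflection_sub hn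
  refine ⟨A '' stdCell, ⟨A, rfl⟩, A (√(2 / 3) • emb ![1, 1, 0, 0]), ?_,
    A (√(2 / 3) • emb ![1, 0, 1, 0]), ?_, ?_, 1, one_pos, ?_⟩
  · rw [extreme_general]
    exact ⟨_, ⟨![1, 1, 0, 0], by decide, fun i => rfl⟩, rfl⟩
  · rw [extreme_general]
    exact ⟨_, ⟨![1, 0, 1, 0], by decide, fun i => rfl⟩, rfl⟩
  · rw [A.dist_map, dist_eq_norm]
    have h1 : ‖(√(2 / 3) • emb ![1, 1, 0, 0] - √(2 / 3) • emb ![1, 0, 1, 0] : E4)‖ ^ 2 =
        (2 / √3) ^ 2 := by
      rw [normsq4, div_pow, sq3]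
      simp only [PiLp.sub_apply, PiLp.smul_apply, emb_apply, smul_eq_mul]
      clear_value A m0
      clear hm0 hpos
      generalize √(2 / 3) = r at h23 ⊢
      simp
      linear_combination (2 : ℝ) * h23
    exact (pow_left_inj₀ (norm_nonneg _) (by positivity) (two_ne_zero)).1 h1
  · rw [one_smul, ← hA, midpoint_eq_smul_add, ← map_add, ← map_smul]
    congr 1
    rw [hm0]
    ext i
    simp only [PiLp.add_apply, PiLp.smul_apply, emb_apply, smul_eq_mul, invOf_eq_inv]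
    fin_cases i <;> simp <;> ring

end Pool.Agent.Q247.AP
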