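import Mathlib

/-!
# Primitive solutions of `z² + 8 η² + 24 ξ² = m²`

For every odd `m ≥ 3` there are integers `z, η, ξ` without common prime factor, with `η + ξ` odd and
`z² + 8 η² + 24 ξ² = m²`.  The proof works in the Eisenstein integers: a pair `(z, x)` with
`z² + 8 N(x) = m²` is moved to a pair for `m p` by conjugation with a quaternion `γ + δ J` of norm
`N(γ) + 2 N(δ) = p`; the existence of such a quaternion comes from Lagrange's four square theorem.
-/

set_option autoImplicit false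

namespace Pool.Agent.Q247.AP

/-- The Eisenstein integers `ℤ[ω]`, `ω² = -1 - ω`. -/
abbrev Eis := QuadraticAlgebra ℤ (-1) (-1)

/-- The norm `N(x + y ω) = x² - x y + y²`. -/
def nr (x : Eis) : ℤ := x.re ^ 2 - x.re * x.im + x.im ^ 2

lemma nr_mul (x y : Eis) : nr (x * y) = nr x * nr y := by
  simp only [nr, QuadraticAlgebra.re_mul, QuadraticAlgebra.im_mul]; ring

lemma nr_star (x : Eis) : nr (star x) = nr x := by
  simp only [nr, QuadraticAlgebra.re_star, QuadraticAlgebra.im_star]; ring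

lemma mul_star_nr (x : Eis) : x * star x = ((nr x : ℤ) : Eis) := by
  ext
  · simp only [nr, QuadraticAlgebra.re_mul, QuadraticAlgebra.re_star, QuadraticAlgebra.im_star,
      QuadraticAlgebra.re_intCast, Int.cast_id]; ring
  · simp only [nr, QuadraticAlgebra.im_mul, QuadraticAlgebra.re_star, QuadraticAlgebra.im_star,
      QuadraticAlgebra.im_intCast]; ring

lemma nr_nonneg (x : Eis) : 0 ≤ nr x := by
  unfold nr; nlinarith [sq_nonneg (x.re - x.im), sq_nonneg x.re, sq_nonneg x.im]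

lemma nr_pos {x : Eis} (hx : x ≠ 0) : 0 < nr x := by
  rcases lt_or_eq_of_le (nr_nonneg x) with h | h
  · exact h
  · exfalso
    apply hx
    unfold nr at h
    have h1 : x.re = 0 := by
      by_contra h1
      have := sq_pos_of_ne_zero h1
      nlinarith [sq_nonneg (x.re - 2 * x.im)]
    have h2 : x.im = 0 := by
      by_contra h2
      have := sq_pos_of_ne_zero h2
      nlinarith [sq_nonneg (x.im - 2 * x.re)]
    ext
    · simpa using h1
    · simpa using h2

lemma int_dvd_iff (n : ℤ) (x : Eis) : ((n : ℤ) : Eis) ∣ x ↔ n ∣ x.re ∧ n ∣ x.im := by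
  constructor
  · rintro ⟨y, rfl⟩
    simp
  · rintro ⟨⟨a, ha⟩, ⟨b, hb⟩⟩
    refine ⟨⟨a, b⟩, ?_⟩
    ext
    · simp [ha]
    · simp [hb]

/-- A prime that divides `x` times a prime-to-`p` rational integer divides `x`. -/
lemma dvd_of_dvd_int_mul {p : ℤ} (hp : Prime p) {n : ℤ} (hn : ¬ p ∣ n) {x : Eis}
    (h : (p : Eis) ∣ (n : Eis) * x) : (p : Eis) ∣ x := by
  rw [int_dvd_iff] at h ⊢
  have h1 : ((n : Eis) * x).re = n * x.re := by simp
  have h2 : ((n : Eis) * x).im = n * x.im := by simp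
  rw [h1, h2] at h
  exact ⟨(hp.dvd_or_dvd h.1).resolve_left hn, (hp.dvd_or_dvd h.2).resolve_left hn⟩

/-- Rational primes in a product: if `p` divides `x y` and `p ∤ N(x)`, then `p ∣ y`. -/
lemma dvd_of_dvd_mul_nr {p : ℤ} (hp : Prime p) {x y : Eis} (hx : ¬ p ∣ nr x)
    (h : (p : Eis) ∣ x * y) : (p : Eis) ∣ y := by
  apply dvd_of_dvd_int_mul hp hx
  rw [← mul_star_nr]
  have : x * star x * y = star x * (x * y) := by ring
  rw [this]
  exact Dvd.dvd.mul_left h _

lemma nr_dvd_of_dvd {p : ℤ} {x : Eis} (h : (p : Eis) ∣ x) : p ^ 2 ∣ nr x := by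
  obtain ⟨y, rfl⟩ := h
  rw [nr_mul]
  have : nr (p : Eis) = p ^ 2 := by simp [nr]
  rw [this]
  exact Dvd.intro _ rfl

/-- The trace `x + x̄`. -/
def tr (x : Eis) : ℤ := 2 * x.re - x.im

/-- First component of the conjugated vector. -/
def T1 (z : ℤ) (x c d : Eis) : ℤ := z * (nr c - 2 * nr d) - 4 * tr (x * c * d)

/-- Second component of the conjugated vector. -/
def T2 (z : ℤ) (x c d : Eis) : Eis :=
  x * c ^ 2 + (z : Eis) * c * star d - 2 * star x * star d ^ 2

lemma T_norm (z : ℤ) (x c d : Eis) :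
    T1 z x c d ^ 2 + 8 * nr (T2 z x c d) = (nr c + 2 * nr d) ^ 2 * (z ^ 2 + 8 * nr x) := by
  obtain ⟨x0, x1⟩ := x
  obtain ⟨c0, c1⟩ := c
  obtain ⟨d0, d1⟩ := d
  simp only [T1, T2, nr, tr, pow_two, QuadraticAlgebra.re_mul, QuadraticAlgebra.im_mul,
    QuadraticAlgebra.re_add, QuadraticAlgebra.im_add, QuadraticAlgebra.re_sub,
    QuadraticAlgebra.im_sub, QuadraticAlgebra.re_star, QuadraticAlgebra.im_star,
    QuadraticAlgebra.re_intCast, QuadraticAlgebra.im_intCast, QuadraticAlgebra.re_ofNat,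
    QuadraticAlgebra.im_ofNat, Int.cast_id]
  ring

lemma T_inv1 (z : ℤ) (x c d : Eis) :
    T1 (T1 z x c d) (T2 z x c d) (star c) (-d) = (nr c + 2 * nr d) ^ 2 * z := by
  obtain ⟨x0, x1⟩ := x
  obtain ⟨c0, c1⟩ := c
  obtain ⟨d0, d1⟩ := d
  simp only [T1, T2, nr, tr, pow_two, QuadraticAlgebra.re_mul, QuadraticAlgebra.im_mul,
    QuadraticAlgebra.re_add, QuadraticAlgebra.im_add, QuadraticAlgebra.re_sub,
    QuadraticAlgebra.im_sub, QuadraticAlgebra.re_star, QuadraticAlgebra.im_star,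
    QuadraticAlgebra.re_intCast, QuadraticAlgebra.im_intCast, QuadraticAlgebra.re_ofNat,
    QuadraticAlgebra.im_ofNat, Int.cast_id, QuadraticAlgebra.re_neg, QuadraticAlgebra.im_neg]
  ring

lemma T_inv2 (z : ℤ) (x c d : Eis) :
    T2 (T1 z x c d) (T2 z x c d) (star c) (-d) = (((nr c + 2 * nr d) ^ 2 : ℤ) : Eis) * x := by
  obtain ⟨x0, x1⟩ := x
  obtain ⟨c0, c1⟩ := c
  obtain ⟨d0, d1⟩ := d
  ext
  · simp only [T1, T2, nr, tr, pow_two, QuadraticAlgebra.re_mul, QuadraticAlgebra.im_mul,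
      QuadraticAlgebra.re_add, QuadraticAlgebra.im_add, QuadraticAlgebra.re_sub,
      QuadraticAlgebra.im_sub, QuadraticAlgebra.re_star, QuadraticAlgebra.im_star,
      QuadraticAlgebra.re_intCast, QuadraticAlgebra.im_intCast, QuadraticAlgebra.re_ofNat,
      QuadraticAlgebra.im_ofNat, Int.cast_id, QuadraticAlgebra.re_neg, QuadraticAlgebra.im_neg]
    ring
  · simp only [T1, T2, nr, tr, pow_two, QuadraticAlgebra.re_mul, QuadraticAlgebra.im_mul,
      QuadraticAlgebra.re_add, QuadraticAlgebra.im_add, QuadraticAlgebra.re_sub,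
      QuadraticAlgebra.im_sub, QuadraticAlgebra.re_star, QuadraticAlgebra.im_star,
      QuadraticAlgebra.re_intCast, QuadraticAlgebra.im_intCast, QuadraticAlgebra.re_ofNat,
      QuadraticAlgebra.im_ofNat, Int.cast_id, QuadraticAlgebra.re_neg, QuadraticAlgebra.im_neg]
    ring

/-- If an integer divides both components of `(z, x)`, it divides both components of the image. -/
lemma T1_dvd {q z : ℤ} {x : Eis} (c d : Eis) (h1 : q ∣ z) (h2 : (q : Eis) ∣ x) :
    q ∣ T1 z x c d := by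
  unfold T1
  apply dvd_sub
  · exact Dvd.dvd.mul_right h1 _
  · apply Dvd.dvd.mul_left
    have h3 : (q : Eis) ∣ x * c * d := by
      rw [mul_assoc]; exact Dvd.dvd.mul_right h2 _
    rw [int_dvd_iff] at h3
    unfold tr
    exact dvd_sub (Dvd.dvd.mul_left h3.1 _) h3.2

lemma T2_dvd {q z : ℤ} {x : Eis} (c d : Eis) (h1 : q ∣ z) (h2 : (q : Eis) ∣ x) :
    (q : Eis) ∣ T2 z x c d := by
  unfold T2
  have hz : (q : Eis) ∣ (z : Eis) := by
    obtain ⟨k, rfl⟩ := h1
    exact ⟨(k : Eis), by push_cast; ring⟩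
  have hx : (q : Eis) ∣ star x := by
    rw [int_dvd_iff] at h2 ⊢
    simp only [QuadraticAlgebra.re_star, QuadraticAlgebra.im_star]
    refine ⟨?_, ?_⟩
    · exact dvd_add h2.1 (Dvd.dvd.mul_left h2.2 _)
    · exact (dvd_neg).2 h2.2
  apply dvd_sub
  · apply dvd_add
    · exact Dvd.dvd.mul_right h2 _
    · rw [mul_assoc]; exact Dvd.dvd.mul_right hz _
  · rw [mul_assoc]
    apply Dvd.dvd.mul_left
    exact Dvd.dvd.mul_right hx _

/-- A prime different from `p` that divides both components of the image divides both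
components of the vector. -/
lemma T_prim_other {q p z : ℤ} (hq : Prime q) {x c d : Eis} (hp : nr c + 2 * nr d = p)
    (hqp : ¬ q ∣ p) (h1 : q ∣ T1 z x c d) (h2 : (q : Eis) ∣ T2 z x c d) :
    q ∣ z ∧ (q : Eis) ∣ x := by
  have a1 := T1_dvd (star c) (-d) h1 h2
  have a2 := T2_dvd (star c) (-d) h1 h2
  rw [T_inv1, hp] at a1
  rw [T_inv2, hp] at a2
  have hqp2 : ¬ q ∣ p ^ 2 := fun h => hqp (hq.dvd_of_dvd_pow h)
  exact ⟨(hq.dvd_or_dvd a1).resolve_left hqp2, dvd_of_dvd_int_mul hq hqp2 a2⟩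

/-- The root of unity `ω`. -/
def om : Eis := ⟨0, 1⟩

lemma nr_om : nr om = 1 := by simp [nr, om]

lemma nr_om_mul (d : Eis) : nr (om * d) = nr d := by rw [nr_mul, nr_om, one_mul]

lemma nr_neg (d : Eis) : nr (-d) = nr d := by
  simp only [nr, QuadraticAlgebra.re_neg, QuadraticAlgebra.im_neg]; ring

lemma two_dvd_iff (n : ℤ) : (2 : ℤ) ∣ n ↔ ((n : ℤ) : ZMod 2) = 0 := by
  have := ZMod.intCast_zmod_eq_zero_iff_dvd n 2
  simpa using this.symm

/-- Divisibility of both coordinates by two. -/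
def Ev (x : Eis) : Prop := (2 : ℤ) ∣ x.re ∧ (2 : ℤ) ∣ x.im

lemma ev_iff_nr (x : Eis) : Ev x ↔ (2 : ℤ) ∣ nr x := by
  unfold Ev nr
  constructor
  · rintro ⟨⟨a, ha⟩, ⟨b, hb⟩⟩
    rw [ha, hb]
    exact ⟨2 * a ^ 2 - 2 * a * b + 2 * b ^ 2, by ring⟩
  · intro h
    rw [two_dvd_iff] at h
    have h1 : ∀ a b : ZMod 2, a ^ 2 - a * b + b ^ 2 = 0 → a = 0 ∧ b = 0 := by decide
    push_cast at h
    obtain ⟨h2, h3⟩ := h1 _ _ h
    exact ⟨(two_dvd_iff _).2 h2, (two_dvd_iff _).2 h3⟩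

lemma ev_neg (z : ℤ) (x c d : Eis) : Ev (T2 z x c (-d)) ↔ Ev (T2 z x c d) := by
  have h : T2 z x c d - T2 z x c (-d) = 2 * ((z : Eis) * c * star d) := by
    unfold T2; rw [star_neg]; ring
  have h2 : ((2 : ℤ) : Eis) ∣ T2 z x c d - T2 z x c (-d) := by
    rw [h]; push_cast; exact Dvd.intro _ rfl
  have e1 : Ev (T2 z x c (-d)) ↔ ((2 : ℤ) : Eis) ∣ T2 z x c (-d) := (int_dvd_iff 2 _).symm
  have e2 : Ev (T2 z x c d) ↔ ((2 : ℤ) : Eis) ∣ T2 z x c d := (int_dvd_iff 2 _).symm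
  rw [e1, e2]
  constructor
  · intro h3
    have := dvd_add h2 h3
    simpa using this
  · intro h3
    have := dvd_sub h3 h2
    simpa using this

lemma par_aux : ∀ x0 x1 c0 c1 d0 d1 : ZMod 2, ¬ (x0 = 0 ∧ x1 = 0) → ¬ (c0 = 0 ∧ c1 = 0) →
    ¬ (d0 = 0 ∧ d1 = 0) →
    let f : ZMod 2 → ZMod 2 → Prop := fun e0 e1 =>
      (x0 * (c0 * c0 - c1 * c1) - x1 * (2 * c0 * c1 - c1 * c1)
        + (c0 * (e0 - e1) + c1 * e1) = 0) ∧
      (x1 * (c0 * c0 - c1 * c1) + x0 * (2 * c0 * c1 - c1 * c1) - x1 * (2 * c0 * c1 - c1 * c1)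
        + (c1 * (e0 - e1) - c0 * e1 + c1 * e1) = 0)
    (¬ f d0 d1 ∧ ¬ f (-d1) (d0 - d1)) ∨ (¬ f (-d1) (d0 - d1) ∧ ¬ f (d1 - d0) (-d0)) ∨
      (¬ f (d1 - d0) (-d0) ∧ ¬ f d0 d1) := by
  decide

lemma T2_ev_iff (z : ℤ) (hz : ¬ (2 : ℤ) ∣ z) (x c d : Eis) : Ev (T2 z x c d) ↔
    (((x.re : ZMod 2) * ((c.re : ZMod 2) * c.re - c.im * c.im)
        - x.im * (2 * c.re * c.im - c.im * c.im)
        + (c.re * ((d.re : ZMod 2) - d.im) + c.im * d.im) = 0) ∧
      ((x.im : ZMod 2) * ((c.re : ZMod 2) * c.re - c.im * c.im)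
        + x.re * (2 * c.re * c.im - c.im * c.im)
        - x.im * (2 * c.re * c.im - c.im * c.im)
        + (c.im * ((d.re : ZMod 2) - d.im) - c.re * d.im + c.im * d.im) = 0)) := by
  have hz1 : (z : ZMod 2) = 1 := by
    have h0 : (z : ZMod 2) ≠ 0 := fun h => hz ((two_dvd_iff _).2 h)
    have : ∀ a : ZMod 2, a ≠ 0 → a = 1 := by decide
    exact this _ h0
  unfold Ev
  rw [two_dvd_iff, two_dvd_iff]
  have r1 : (((T2 z x c d).re : ℤ) : ZMod 2) = (x.re : ZMod 2) * ((c.re : ZMod 2) * c.re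
      - c.im * c.im) - x.im * (2 * c.re * c.im - c.im * c.im)
        + (c.re * ((d.re : ZMod 2) - d.im) + c.im * d.im) := by
    simp only [T2, pow_two, QuadraticAlgebra.re_mul, QuadraticAlgebra.im_mul,
      QuadraticAlgebra.re_add, QuadraticAlgebra.im_add, QuadraticAlgebra.re_sub,
      QuadraticAlgebra.im_sub, QuadraticAlgebra.re_star, QuadraticAlgebra.im_star,
      QuadraticAlgebra.re_intCast, QuadraticAlgebra.im_intCast, QuadraticAlgebra.re_ofNat,
      QuadraticAlgebra.im_ofNat, Int.cast_id]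
    push_cast
    rw [hz1]
    generalize (x.re : ZMod 2) = a0
    generalize (x.im : ZMod 2) = a1
    generalize (c.re : ZMod 2) = b0
    generalize (c.im : ZMod 2) = b1
    generalize (d.re : ZMod 2) = e0
    generalize (d.im : ZMod 2) = e1
    revert a0 a1 b0 b1 e0 e1
    decide
  have r2 : (((T2 z x c d).im : ℤ) : ZMod 2) = (x.im : ZMod 2) * ((c.re : ZMod 2) * c.re
      - c.im * c.im) + x.re * (2 * c.re * c.im - c.im * c.im)
        - x.im * (2 * c.re * c.im - c.im * c.im)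
        + (c.im * ((d.re : ZMod 2) - d.im) - c.re * d.im + c.im * d.im) := by
    simp only [T2, pow_two, QuadraticAlgebra.re_mul, QuadraticAlgebra.im_mul,
      QuadraticAlgebra.re_add, QuadraticAlgebra.im_add, QuadraticAlgebra.re_sub,
      QuadraticAlgebra.im_sub, QuadraticAlgebra.re_star, QuadraticAlgebra.im_star,
      QuadraticAlgebra.re_intCast, QuadraticAlgebra.im_intCast, QuadraticAlgebra.re_ofNat,
      QuadraticAlgebra.im_ofNat, Int.cast_id]
    push_cast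
    rw [hz1]
    generalize (x.re : ZMod 2) = a0
    generalize (x.im : ZMod 2) = a1
    generalize (c.re : ZMod 2) = b0
    generalize (c.im : ZMod 2) = b1
    generalize (d.re : ZMod 2) = e0
    generalize (d.im : ZMod 2) = e1
    revert a0 a1 b0 b1 e0 e1
    decide
  rw [r1, r2]

lemma om_mul_re (d : Eis) : (om * d).re = -d.im := by simp [om]

lemma om_mul_im (d : Eis) : (om * d).im = d.re - d.im := by simp [om]; ring

/-- Two consecutive rotations of `d` give a vector with odd second component. -/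
lemma parity {z : ℤ} {x c d : Eis} (hz : ¬ (2 : ℤ) ∣ z) (hx : ¬ Ev x) (hc : ¬ Ev c)
    (hd : ¬ Ev d) : ∃ e : Eis, nr e = nr d ∧ ¬ Ev (T2 z x c e) ∧ ¬ Ev (T2 z x c (om * e)) := by
  have key := par_aux (x.re : ZMod 2) x.im c.re c.im d.re d.im
    (fun h => hx ⟨(two_dvd_iff _).2 h.1,
      (two_dvd_iff _).2 h.2⟩)
    (fun h => hc ⟨(two_dvd_iff _).2 h.1,
      (two_dvd_iff _).2 h.2⟩)
    (fun h => hd ⟨(two_dvd_iff _).2 h.1,
      (two_dvd_iff _).2 h.2⟩)
  have f0 := T2_ev_iff z hz x c d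
  have f1 := T2_ev_iff z hz x c (om * d)
  have f2 := T2_ev_iff z hz x c (om * (om * d))
  have h3 : om * (om * (om * d)) = d := by
    ext
    · simp only [om_mul_re, om_mul_im]; ring
    · simp only [om_mul_re, om_mul_im]; ring
  simp only [om_mul_re, om_mul_im, Int.cast_neg, Int.cast_sub] at f1 f2
  rcases key with h | h | h
  · refine ⟨d, rfl, ?_, ?_⟩
    · rw [f0]; exact h.1
    · rw [f1]; exact h.2
  · refine ⟨om * d, nr_om_mul d, ?_, ?_⟩
    · rw [f1]; exact h.1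
    · rw [f2]
      have e1 : (-((d.re : ZMod 2) - d.im)) = d.im - d.re := by ring
      have e2 : (-(d.im : ZMod 2) - ((d.re : ZMod 2) - d.im)) = -d.re := by ring
      rw [e1, e2]
      exact h.2
  · refine ⟨om * (om * d), by rw [nr_om_mul, nr_om_mul], ?_, ?_⟩
    · rw [f2]
      have e1 : (-((d.re : ZMod 2) - d.im)) = d.im - d.re := by ring
      have e2 : (-(d.im : ZMod 2) - ((d.re : ZMod 2) - d.im)) = -d.re := by ring
      rw [e1, e2]
      exact h.1
    · rw [h3, f0]; exact h.2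

end Pool.Agent.Q247.AP
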