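import Pool.Agent.Q247.AP.NT

/-!
# The induction over the prime factors
-/

set_option autoImplicit false

namespace Pool.Agent.Q247.AP

lemma T2_diff (z : ℤ) (x c d : Eis) :
    T2 z x c d - T2 z x c (-d) = 2 * ((z : Eis) * (c * star d)) := by
  unfold T2; rw [star_neg]; ring

lemma star_om_sq : star om * star om = om := by
  ext <;> simp [om]

lemma om_rel : (om - 1) * (star om - 1) = 3 := by
  ext
  · simp only [om, QuadraticAlgebra.re_mul, QuadraticAlgebra.im_mul, QuadraticAlgebra.re_sub,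
      QuadraticAlgebra.im_sub, QuadraticAlgebra.re_star, QuadraticAlgebra.im_star,
      QuadraticAlgebra.re_one, QuadraticAlgebra.im_one, QuadraticAlgebra.re_ofNat]
    norm_num
  · simp only [om, QuadraticAlgebra.re_mul, QuadraticAlgebra.im_mul, QuadraticAlgebra.re_sub,
      QuadraticAlgebra.im_sub, QuadraticAlgebra.re_star, QuadraticAlgebra.im_star,
      QuadraticAlgebra.re_one, QuadraticAlgebra.im_one, QuadraticAlgebra.im_ofNat]
    norm_num

lemma T2_third (z : ℤ) (x c d : Eis) :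
    (2 * T2 z x c (om * d) - 2 * ((z : Eis) * (c * star (om * d))) -
      (T2 z x c d + T2 z x c (-d))) * (d ^ 2 * (star om - 1)) =
      ((-(12 * nr d ^ 2) : ℤ) : Eis) * star x := by
  have h1 : star (om * d) = star om * star d := by rw [star_mul]; ring
  have h2 : (((nr d) : ℤ) : Eis) = d * star d := (mul_star_nr d).symm
  unfold T2
  rw [h1, star_neg]
  push_cast
  rw [h2]
  linear_combination (-4 * star x * star d ^ 2 * d ^ 2 * (star om - 1)) * star_om_sq
    + (-4 * star x * star d ^ 2 * d ^ 2) * om_rel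

/-- For a prime `p ≥ 5` at least one of three conjugates is not divisible by `p`. -/
lemma step_p {p z : ℤ} {x c d : Eis} (hp : Prime p) (h12 : ¬ p ∣ 12) (hc : ¬ p ∣ nr c)
    (hd : ¬ p ∣ nr d) (h1 : (p : Eis) ∣ T2 z x c d) (h2 : (p : Eis) ∣ T2 z x c (-d))
    (h3 : (p : Eis) ∣ T2 z x c (om * d)) : p ∣ z ∧ (p : Eis) ∣ x := by
  have h2' : ¬ p ∣ 2 := fun h => h12 (h.trans ⟨6, by norm_num⟩)
  have hz' : (p : Eis) ∣ (z : Eis) := by
    have a1 := dvd_sub h1 h2
    rw [T2_diff] at a1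
    have a2 : (p : Eis) ∣ (z : Eis) * (c * star d) := by
      apply dvd_of_dvd_int_mul hp h2'
      push_cast; exact a1
    have a3 : (p : Eis) ∣ (c * star d) * (z : Eis) := by rwa [mul_comm] at a2
    have hcd : ¬ p ∣ nr (c * star d) := by
      rw [nr_mul, nr_star]
      intro h
      rcases hp.dvd_or_dvd h with h | h
      · exact hc h
      · exact hd h
    exact dvd_of_dvd_mul_nr hp hcd a3
  have hz : p ∣ z := by
    have := (int_dvd_iff p _).1 hz'
    simpa using this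
  refine ⟨hz, ?_⟩
  have a4 : (p : Eis) ∣ (2 * T2 z x c (om * d) - 2 * ((z : Eis) * (c * star (om * d))) -
      (T2 z x c d + T2 z x c (-d))) * (d ^ 2 * (star om - 1)) := by
    apply Dvd.dvd.mul_right
    apply dvd_sub
    · apply dvd_sub
      · exact Dvd.dvd.mul_left h3 _
      · exact Dvd.dvd.mul_left (Dvd.dvd.mul_right hz' _) _
    · exact dvd_add h1 h2
  rw [T2_third] at a4
  have hn : ¬ p ∣ (-(12 * nr d ^ 2)) := by
    rw [dvd_neg]
    intro h
    rcases hp.dvd_or_dvd h with h | h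
    · exact h12 h
    · exact hd (hp.dvd_of_dvd_pow h)
  have a5 : (p : Eis) ∣ star x := dvd_of_dvd_int_mul hp hn a4
  have a6 := (int_dvd_iff p _).1 a5
  simp only [QuadraticAlgebra.re_star, QuadraticAlgebra.im_star] at a6
  rw [int_dvd_iff]
  have h7 : p ∣ x.im := (dvd_neg).1 a6.2
  refine ⟨?_, h7⟩
  have h8 : p ∣ -1 * x.im := Dvd.dvd.mul_left h7 _
  exact (dvd_add_left h8).1 a6.1

/-- For `p = 3` one of the two conjugates is not divisible by `3`. -/
lemma step_three {z m : ℤ} {x c d : Eis} (hm : z ^ 2 + 8 * nr x = m ^ 2) (hc : ¬ 3 ∣ nr c)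
    (hd : ¬ 3 ∣ nr d) (h1 : ((3 : ℤ) : Eis) ∣ T2 z x c d) (h2 : ((3 : ℤ) : Eis) ∣ T2 z x c (-d)) :
    3 ∣ z ∧ ((3 : ℤ) : Eis) ∣ x := by
  have hp : Prime (3 : ℤ) := Int.prime_three
  have hz' : ((3 : ℤ) : Eis) ∣ (z : Eis) := by
    have a1 := dvd_sub h1 h2
    rw [T2_diff] at a1
    have a2 : ((3 : ℤ) : Eis) ∣ (z : Eis) * (c * star d) := by
      apply dvd_of_dvd_int_mul (n := 2) hp (by norm_num)
      push_cast at a1 ⊢; exact a1
    have a3 : ((3 : ℤ) : Eis) ∣ (c * star d) * (z : Eis) := by rwa [mul_comm] at a2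
    have hcd : ¬ 3 ∣ nr (c * star d) := by
      rw [nr_mul, nr_star]
      intro h
      rcases hp.dvd_or_dvd h with h | h
      · exact hc h
      · exact hd h
    exact dvd_of_dvd_mul_nr hp hcd a3
  have hz : 3 ∣ z := by
    have := (int_dvd_iff 3 _).1 hz'
    simpa using this
  refine ⟨hz, ?_⟩
  rw [int_dvd_iff]
  -- modulo 3 the norm is a square
  obtain ⟨k, rfl⟩ := hz
  have e1 : nr x = (x.re + x.im) ^ 2 - 3 * (x.re * x.im) := by unfold nr; ring
  have e2 : (3 : ℤ) ∣ 2 * (x.re + x.im) ^ 2 - m ^ 2 := by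
    rw [e1] at hm
    exact ⟨-3 * k ^ 2 - 2 * (x.re + x.im) ^ 2 + 8 * (x.re * x.im), by linarith⟩
  have z3 : ∀ n : ℤ, (3 : ℤ) ∣ n ↔ ((n : ℤ) : ZMod 3) = 0 := by
    intro n
    have := ZMod.intCast_zmod_eq_zero_iff_dvd n 3
    simpa using this.symm
  have e3 : (3 : ℤ) ∣ (x.re + x.im) ∧ (3 : ℤ) ∣ m := by
    rw [z3] at e2
    push_cast at e2
    have hh : ∀ a b : ZMod 3, 2 * a ^ 2 - b ^ 2 = 0 → a = 0 ∧ b = 0 := by decide
    obtain ⟨e4, e5⟩ := hh _ _ e2
    refine ⟨?_, ?_⟩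
    · rw [z3]; push_cast; exact e4
    · rw [z3]; exact e5
  obtain ⟨⟨s, hs⟩, ⟨m', rfl⟩⟩ := e3
  have e6 : (3 : ℤ) ∣ x.re * x.im := by
    rw [e1, hs] at hm
    exact ⟨3 * (x.re * x.im) - (k ^ 2 + 8 * s ^ 2 - m' ^ 2), by linarith⟩
  rcases hp.dvd_or_dvd e6 with h | h
  · refine ⟨h, ?_⟩
    have : (3 : ℤ) ∣ x.re + x.im := ⟨s, hs⟩
    exact (dvd_add_right h).1 this
  · refine ⟨?_, h⟩
    have : (3 : ℤ) ∣ x.re + x.im := ⟨s, hs⟩
    exact (dvd_add_left h).1 this

/-- Existence of a primitive vector with odd second component for the odd number `m`. -/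
def Good (m : ℤ) : Prop := ∃ (z : ℤ) (x : Eis), z ^ 2 + 8 * nr x = m ^ 2 ∧ ¬ Ev x ∧
  ∀ q : ℤ, Prime q → ¬ (q ∣ z ∧ (q : Eis) ∣ x)

lemma nr_lt_of {c d : Eis} {p : ℤ} (hcd : nr c + 2 * nr d = p) (hc : ¬ Ev c) (hd : ¬ Ev d) :
    0 < nr c ∧ 0 < nr d ∧ nr c < p ∧ nr d < p := by
  have h0 : ∀ y : Eis, ¬ Ev y → 0 < nr y := by
    intro y hy
    apply nr_pos
    rintro rfl
    exact hy ⟨by simp, by simp⟩
  have h1 := h0 c hc
  have h2 := h0 d hd
  refine ⟨h1, h2, by linarith, by linarith⟩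

lemma not_dvd_of_lt {n p : ℤ} (h1 : 0 < n) (h2 : n < p) : ¬ p ∣ n := fun h =>
  absurd (Int.le_of_dvd h1 h) (by linarith)

lemma odd_c {c d : Eis} {p : ℤ} (hcd : nr c + 2 * nr d = p) (hp2 : ¬ 2 ∣ p) : ¬ Ev c := by
  rw [ev_iff_nr]
  intro h
  apply hp2
  rw [← hcd]
  exact dvd_add h (Dvd.intro _ rfl)

/-- The base case: prime numbers. -/
lemma good_prime {p : ℤ} (hp : Prime p) (hp2 : ¬ 2 ∣ p) {c d : Eis}
    (hcd : nr c + 2 * nr d = p) (hd : ¬ Ev d) : Good p := by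
  have hc := odd_c hcd hp2
  obtain ⟨c0, d0, c1, d1⟩ := nr_lt_of hcd hc hd
  refine ⟨nr c - 2 * nr d, c * d, ?_, ?_, ?_⟩
  · rw [nr_mul, ← hcd]; ring
  · rw [ev_iff_nr, nr_mul]
    intro h
    rcases Int.prime_two.dvd_or_dvd h with h | h
    · exact hc ((ev_iff_nr c).2 h)
    · exact hd ((ev_iff_nr d).2 h)
  · intro q hq ⟨h1, h2⟩
    have h3 : q ^ 2 ∣ nr (c * d) := nr_dvd_of_dvd h2
    have h4 : q ∣ p ^ 2 := by
      rw [← hcd]
      have e : (nr c + 2 * nr d) ^ 2 = (nr c - 2 * nr d) ^ 2 + 8 * nr (c * d) := by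
        rw [nr_mul]; ring
      rw [e]
      apply dvd_add
      · exact Dvd.dvd.pow h1 (by norm_num)
      · exact Dvd.dvd.mul_left ((dvd_pow_self q (by norm_num)).trans h3) _
    have h5 : q ∣ p := hq.dvd_of_dvd_pow h4
    have h6 : Associated q p := (hq.dvd_prime_iff_associated hp).1 h5
    have h7 : p ∣ nr (c * d) := h6.symm.dvd.trans ((dvd_pow_self q (by norm_num)).trans h3)
    rw [nr_mul] at h7
    rcases hp.dvd_or_dvd h7 with h | h
    · exact not_dvd_of_lt c0 c1 h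
    · exact not_dvd_of_lt d0 d1 h

/-- The induction step. -/
lemma good_mul {m p : ℤ} (hm2 : ¬ 2 ∣ m) (hp : Prime p) (hppos : 0 < p) (hp2 : ¬ 2 ∣ p)
    {c d : Eis} (hcd : nr c + 2 * nr d = p) (hd : ¬ Ev d) (hg : Good m) : Good (m * p) := by
  obtain ⟨z, x, hzx, hx, hprim⟩ := hg
  have hc := odd_c hcd hp2
  have hz2 : ¬ (2 : ℤ) ∣ z := by
    intro h
    apply hm2
    apply Int.prime_two.dvd_of_dvd_pow (n := 2)
    rw [← hzx]
    apply dvd_add
    · exact Dvd.dvd.pow h (by norm_num)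
    · exact Dvd.dvd.mul_right (by norm_num) _
  obtain ⟨e, hed, he1, he2⟩ := parity hz2 hx hc hd
  rw [← hed] at hcd
  have hd' : ¬ Ev e := by rw [ev_iff_nr, hed, ← ev_iff_nr]; exact hd
  obtain ⟨c0, d0, c1, d1⟩ := nr_lt_of hcd hc hd'
  have hcp := not_dvd_of_lt c0 c1
  have hdp := not_dvd_of_lt d0 d1
  -- one of the three vectors is not divisible by `p`
  have key : ∃ f : Eis, nr f = nr e ∧ ¬ Ev (T2 z x c f) ∧ ¬ ((p : Eis) ∣ T2 z x c f) := by
    by_cases h12 : p ∣ 12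
    · -- then `p = 3`
      have hp3 : p = 3 := by
        have h1 : p ∣ 2 ^ 2 * 3 := by norm_num; exact h12
        rcases hp.dvd_or_dvd h1 with h | h
        · exfalso
          have h2 : p ∣ 2 := hp.dvd_of_dvd_pow h
          have h3 : Associated p 2 := (hp.dvd_prime_iff_associated Int.prime_two).1 h2
          exact hp2 h3.symm.dvd
        · have h3 : Associated p 3 := (hp.dvd_prime_iff_associated Int.prime_three).1 h
          have h4 := Int.associated_iff.1 h3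
          rcases h4 with h4 | h4
          · exact h4
          · omega
      subst hp3
      by_contra hcon
      push Not at hcon
      have k1 := hcon e rfl he1
      have k2 := hcon (-e) (nr_neg e) (by rw [ev_neg]; exact he1)
      exact hprim 3 hp (step_three hzx hcp hdp k1 k2)
    · by_contra hcon
      push Not at hcon
      have k1 := hcon e rfl he1
      have k2 := hcon (-e) (nr_neg e) (by rw [ev_neg]; exact he1)
      have k3 := hcon (om * e) (nr_om_mul e) he2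
      exact hprim p hp (step_p hp h12 hcp hdp k1 k2 k3)
  obtain ⟨f, hf, hf1, hf2⟩ := key
  rw [← hf] at hcd
  refine ⟨T1 z x c f, T2 z x c f, ?_, hf1, ?_⟩
  · rw [T_norm, hcd, hzx]; ring
  · intro q hq ⟨h1, h2⟩
    by_cases hqp : q ∣ p
    · have h6 : Associated q p := (hq.dvd_prime_iff_associated hp).1 hqp
      apply hf2
      have h7 : ((p : ℤ) : Eis) ∣ ((q : ℤ) : Eis) := by
        obtain ⟨k, hk⟩ := h6.symm.dvd
        exact ⟨(k : Eis), by rw [hk]; push_cast; ring⟩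
      exact h7.trans h2
    · exact hprim q hq (T_prim_other hq hcd hqp h1 h2)

end Pool.Agent.Q247.AP
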