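import Pool.Agent.Q247.AP.NT2

/-!
# Quaternions of prime norm and the final existence theorem
-/

set_option autoImplicit false

namespace Pool.Agent.Q247.AP

/-- One step at the prime three: a vector prime to `3` is moved to a vector prime to `3` of nine
times the norm and the same parities. -/
lemma rot3 (x y z : ℤ) (h : ¬ (3 ∣ x ∧ 3 ∣ y ∧ 3 ∣ z)) : ∃ a b c : ℤ,
    ¬ (3 ∣ a ∧ 3 ∣ b ∧ 3 ∣ c) ∧ a ^ 2 + b ^ 2 + c ^ 2 = 9 * (x ^ 2 + y ^ 2 + z ^ 2) ∧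
    2 ∣ a - x ∧ 2 ∣ b - y ∧ 2 ∣ c - z := by
  have key : ¬ 3 ∣ (x - y - z) ∨ ¬ 3 ∣ (x + y - z) ∨ ¬ 3 ∣ (x - y + z) ∨ ¬ 3 ∣ (x + y + z) := by
    by_contra hcon
    push Not at hcon
    obtain ⟨h1, h2, h3, h4⟩ := hcon
    apply h
    refine ⟨by omega, by omega, by omega⟩
  rcases key with k | k | k | k
  · exact ⟨x + 2 * y + 2 * z, 2 * x + y - 2 * z, -2 * x + 2 * y - z,
      by rintro ⟨h1, -, -⟩; omega, by ring, by omega, by omega, by omega⟩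
  · exact ⟨x + 2 * (-y) + 2 * z, 2 * x + (-y) - 2 * z, -2 * x + 2 * (-y) - z,
      by rintro ⟨h1, -, -⟩; omega, by ring, by omega, by omega, by omega⟩
  · exact ⟨x + 2 * y + 2 * (-z), 2 * x + y - 2 * (-z), -2 * x + 2 * y - (-z),
      by rintro ⟨h1, -, -⟩; omega, by ring, by omega, by omega, by omega⟩
  · exact ⟨x + 2 * (-y) + 2 * (-z), 2 * x + (-y) - 2 * (-z), -2 * x + 2 * (-y) - (-z),
      by rintro ⟨h1, -, -⟩; omega, by ring, by omega, by omega, by omega⟩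

/-- Every nonzero vector can be replaced by a vector prime to `3` of the same norm and parities. -/
lemma prim3 : ∀ n : ℕ, ∀ x y z : ℤ, (x ^ 2 + y ^ 2 + z ^ 2) ≤ n → ¬ (x = 0 ∧ y = 0 ∧ z = 0) →
    ∃ a b c : ℤ, ¬ (3 ∣ a ∧ 3 ∣ b ∧ 3 ∣ c) ∧ a ^ 2 + b ^ 2 + c ^ 2 = x ^ 2 + y ^ 2 + z ^ 2 ∧
    2 ∣ a - x ∧ 2 ∣ b - y ∧ 2 ∣ c - z := by
  intro n
  induction n with
  | zero =>
    intro x y z hn h0
    exfalso
    apply h0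
    have hx := sq_nonneg x
    have hy := sq_nonneg y
    have hz := sq_nonneg z
    push_cast at hn
    refine ⟨?_, ?_, ?_⟩
    · exact pow_eq_zero_iff (two_ne_zero) |>.1 (by linarith : x ^ 2 = 0)
    · exact pow_eq_zero_iff (two_ne_zero) |>.1 (by linarith : y ^ 2 = 0)
    · exact pow_eq_zero_iff (two_ne_zero) |>.1 (by linarith : z ^ 2 = 0)
  | succ n ih =>
    intro x y z hn h0
    by_cases h : 3 ∣ x ∧ 3 ∣ y ∧ 3 ∣ z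
    · obtain ⟨⟨x', rfl⟩, ⟨y', rfl⟩, ⟨z', rfl⟩⟩ := h
      have h0' : ¬ (x' = 0 ∧ y' = 0 ∧ z' = 0) := by
        rintro ⟨rfl, rfl, rfl⟩
        exact h0 ⟨rfl, rfl, rfl⟩
      have hpos : 0 < x' ^ 2 + y' ^ 2 + z' ^ 2 := by
        by_contra hcon
        apply h0'
        have hx := sq_nonneg x'
        have hy := sq_nonneg y'
        have hz := sq_nonneg z'
        refine ⟨?_, ?_, ?_⟩
        · exact pow_eq_zero_iff (two_ne_zero) |>.1 (by linarith : x' ^ 2 = 0)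
        · exact pow_eq_zero_iff (two_ne_zero) |>.1 (by linarith : y' ^ 2 = 0)
        · exact pow_eq_zero_iff (two_ne_zero) |>.1 (by linarith : z' ^ 2 = 0)
      have hn' : x' ^ 2 + y' ^ 2 + z' ^ 2 ≤ n := by
        push_cast at hn
        nlinarith
      obtain ⟨a, b, c, h1, h2, h3, h4, h5⟩ := ih x' y' z' hn' h0'
      obtain ⟨a', b', c', k1, k2, k3, k4, k5⟩ := rot3 a b c h1
      refine ⟨a', b', c', k1, by rw [k2, h2]; ring, by omega, by omega, by omega⟩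
    · exact ⟨x, y, z, h, rfl, by simp, by simp, by simp⟩

lemma from_sum (a q1 q2 q3 t : ℤ) (ht : q1 + q2 + q3 = 3 * t) (h : ¬ 2 ∣ q1 - q2) :
    ∃ c d : Eis, nr c + 2 * nr d = a ^ 2 + q1 ^ 2 + q2 ^ 2 + q3 ^ 2 ∧ ¬ Ev d := by
  refine ⟨⟨a + t, 2 * t⟩, ⟨q1 - t, -(q2 - t)⟩, ?_, ?_⟩
  · have : q3 = 3 * t - q1 - q2 := by linarith
    subst this
    simp only [nr]
    ring
  · rintro ⟨h1, h2⟩
    simp only at h1 h2
    omega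

lemma z3 (n : ℤ) : (3 : ℤ) ∣ n ↔ ((n : ℤ) : ZMod 3) = 0 := by
  have := ZMod.intCast_zmod_eq_zero_iff_dvd n 3
  simpa using this.symm

lemma signs_aux : ∀ x0 x1 x2 x3 : ZMod 3, ¬ (x1 = 0 ∧ x2 = 0 ∧ x3 = 0) →
    (x0 + x1 + x2 = 0 ∨ x0 + x1 - x2 = 0 ∨ x0 - x1 + x2 = 0 ∨ x0 - x1 - x2 = 0) ∨
    (x0 + x1 + x3 = 0 ∨ x0 + x1 - x3 = 0 ∨ x0 - x1 + x3 = 0 ∨ x0 - x1 - x3 = 0) ∨
    (x0 + x2 + x3 = 0 ∨ x0 + x2 - x3 = 0 ∨ x0 - x2 + x3 = 0 ∨ x0 - x2 - x3 = 0) := by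
  decide

lemma signs (x0 x1 x2 x3 : ℤ) (h : ¬ (3 ∣ x1 ∧ 3 ∣ x2 ∧ 3 ∣ x3)) :
    (3 ∣ x0 + x1 + x2 ∨ 3 ∣ x0 + x1 - x2 ∨ 3 ∣ x0 - x1 + x2 ∨ 3 ∣ x0 - x1 - x2) ∨
    (3 ∣ x0 + x1 + x3 ∨ 3 ∣ x0 + x1 - x3 ∨ 3 ∣ x0 - x1 + x3 ∨ 3 ∣ x0 - x1 - x3) ∨
    (3 ∣ x0 + x2 + x3 ∨ 3 ∣ x0 + x2 - x3 ∨ 3 ∣ x0 - x2 + x3 ∨ 3 ∣ x0 - x2 - x3) := by
  simp only [z3] at h ⊢
  push_cast
  exact signs_aux _ _ _ _ h

lemma from_pair (a q1 q2 q3 : ℤ) (h : ¬ 2 ∣ q1 - q2)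
    (hs : 3 ∣ q1 + q2 + q3 ∨ 3 ∣ q1 + q2 - q3 ∨ 3 ∣ q1 - q2 + q3 ∨ 3 ∣ q1 - q2 - q3) :
    ∃ c d : Eis, nr c + 2 * nr d = a ^ 2 + q1 ^ 2 + q2 ^ 2 + q3 ^ 2 ∧ ¬ Ev d := by
  rcases hs with ⟨t, ht⟩ | ⟨t, ht⟩ | ⟨t, ht⟩ | ⟨t, ht⟩
  · exact from_sum a q1 q2 q3 t ht h
  · obtain ⟨c, d, h1, h2⟩ := from_sum a q1 q2 (-q3) t (by linarith) h
    exact ⟨c, d, by rw [h1]; ring, h2⟩
  · obtain ⟨c, d, h1, h2⟩ := from_sum a q1 (-q2) q3 t (by linarith) (by omega)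
    exact ⟨c, d, by rw [h1]; ring, h2⟩
  · obtain ⟨c, d, h1, h2⟩ := from_sum a q1 (-q2) (-q3) t (by linarith) (by omega)
    exact ⟨c, d, by rw [h1]; ring, h2⟩

lemma from_good (x0 x1 x2 x3 : ℤ) (h12 : 2 ∣ x1 - x2) (h13 : 2 ∣ x1 - x3) (h01 : ¬ 2 ∣ x0 - x1)
    (h3 : ¬ (3 ∣ x1 ∧ 3 ∣ x2 ∧ 3 ∣ x3)) :
    ∃ c d : Eis, nr c + 2 * nr d = x0 ^ 2 + x1 ^ 2 + x2 ^ 2 + x3 ^ 2 ∧ ¬ Ev d := by
  rcases signs x0 x1 x2 x3 h3 with h | h | h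
  · obtain ⟨c, d, h1, h2⟩ := from_pair x3 x0 x1 x2 h01 h
    exact ⟨c, d, by rw [h1]; ring, h2⟩
  · obtain ⟨c, d, h1, h2⟩ := from_pair x2 x0 x1 x3 h01 h
    exact ⟨c, d, by rw [h1]; ring, h2⟩
  · obtain ⟨c, d, h1, h2⟩ := from_pair x1 x0 x2 x3 (by omega) h
    exact ⟨c, d, by rw [h1]; ring, h2⟩

/-- Every odd prime is the norm `N(γ) + 2 N(δ)` of a quaternion with odd `δ`. -/
lemma exists_quat {p : ℕ} (hp : p.Prime) (hp2 : ¬ 2 ∣ (p : ℤ)) :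
    ∃ c d : Eis, nr c + 2 * nr d = (p : ℤ) ∧ ¬ Ev d := by
  obtain ⟨a, b, c, d, hsum⟩ := Nat.sum_four_squares p
  have hs : (a : ℤ) ^ 2 + (b : ℤ) ^ 2 + (c : ℤ) ^ 2 + (d : ℤ) ^ 2 = p := by exact_mod_cast hsum
  have par : ∀ n : ℤ, 2 ∣ n ^ 2 - n := by
    intro n
    have := Int.even_mul_pred_self n
    obtain ⟨k, hk⟩ := this
    exact ⟨k, by linarith [hk, (by ring : n ^ 2 - n = n * (n - 1))]⟩
  have pa := par a
  have pb := par b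
  have pc := par c
  have pd := par d
  have hodd : ¬ (2 : ℤ) ∣ (a : ℤ) + b + c + d := by
    intro h
    apply hp2
    rw [← hs]
    omega
  -- arrange the four numbers
  have harr : ∃ x0 x1 x2 x3 : ℤ, x0 ^ 2 + x1 ^ 2 + x2 ^ 2 + x3 ^ 2 = p ∧ 2 ∣ x1 - x2 ∧
      2 ∣ x1 - x3 ∧ ¬ 2 ∣ x0 - x1 := by
    have hcase : (2 ∣ (b : ℤ) - c ∧ 2 ∣ (b : ℤ) - d ∧ ¬ 2 ∣ (a : ℤ) - b) ∨
        (2 ∣ (a : ℤ) - c ∧ 2 ∣ (a : ℤ) - d ∧ ¬ 2 ∣ (b : ℤ) - a) ∨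
        (2 ∣ (a : ℤ) - b ∧ 2 ∣ (a : ℤ) - d ∧ ¬ 2 ∣ (c : ℤ) - a) ∨
        (2 ∣ (a : ℤ) - b ∧ 2 ∣ (a : ℤ) - c ∧ ¬ 2 ∣ (d : ℤ) - a) := by
      omega
    rcases hcase with ⟨h1, h2, h3⟩ | ⟨h1, h2, h3⟩ | ⟨h1, h2, h3⟩ | ⟨h1, h2, h3⟩
    · exact ⟨a, b, c, d, hs, h1, h2, h3⟩
    · exact ⟨b, a, c, d, by rw [← hs]; ring, h1, h2, h3⟩
    · exact ⟨c, a, b, d, by rw [← hs]; ring, h1, h2, h3⟩
    · exact ⟨d, a, b, c, by rw [← hs]; ring, h1, h2, h3⟩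
  obtain ⟨x0, x1, x2, x3, g1, g2, g3, g4⟩ := harr
  have hne : ¬ (x1 = 0 ∧ x2 = 0 ∧ x3 = 0) := by
    rintro ⟨rfl, rfl, rfl⟩
    have h1 : x0 ^ 2 = (p : ℤ) := by linarith
    have h2 : x0.natAbs ^ 2 = p := by
      have := Int.natAbs_sq x0
      zify
      rw [sq_abs]
      exact h1
    exact (Nat.Prime.prime hp).irreducible.not_isSquare ⟨x0.natAbs, by rw [← h2]; ring⟩
  obtain ⟨y1, y2, y3, k1, k2, k3, k4, k5⟩ :=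
    prim3 (x1 ^ 2 + x2 ^ 2 + x3 ^ 2).toNat x1 x2 x3 (Int.self_le_toNat _) hne
  obtain ⟨c', d', h1, h2⟩ := from_good x0 y1 y2 y3 (by omega) (by omega) (by omega) k1
  exact ⟨c', d', by rw [h1, ← g1]; linarith, h2⟩

/-- **Existence of primitive vectors.** -/
theorem good_odd : ∀ m : ℕ, 3 ≤ m → ¬ 2 ∣ m → Good m := by
  intro m
  induction m using Nat.strong_induction_on with
  | _ m ih =>
    intro h3 h2
    have hm1 : m ≠ 1 := by omega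
    set p := m.minFac with hpdef
    have hp : p.Prime := Nat.minFac_prime hm1
    have hpm : p ∣ m := Nat.minFac_dvd m
    have hp2 : ¬ 2 ∣ p := fun h => h2 (h.trans hpm)
    have hp2' : ¬ (2 : ℤ) ∣ (p : ℤ) := by
      intro h
      apply hp2
      exact_mod_cast h
    obtain ⟨c, d, hcd, hd⟩ := exists_quat hp hp2'
    have hpZ : Prime (p : ℤ) := Nat.prime_iff_prime_int.1 hp
    obtain ⟨k, hk⟩ := hpm
    have hppos := hp.pos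
    have hp1 := hp.one_lt
    by_cases hk1 : k = 1
    · have : m = p := by rw [hk, hk1, mul_one]
      rw [this]
      exact good_prime hpZ hp2' hcd hd
    · have hk0 : k ≠ 0 := by
        rintro rfl
        omega
      have hk2 : ¬ 2 ∣ k := fun h => h2 (by rw [hk]; exact Dvd.dvd.mul_left h _)
      have hk3 : 3 ≤ k := by omega
      have hklt : k < m := by
        rw [hk]
        nlinarith
      have hg := ih k hklt hk3 hk2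
      have hk2' : ¬ (2 : ℤ) ∣ (k : ℤ) := by
        intro h
        apply hk2
        exact_mod_cast h
      have := good_mul hk2' hpZ (by exact_mod_cast hppos) hp2' hcd hd hg
      rw [hk]
      push_cast
      rw [mul_comm]
      exact this

end Pool.Agent.Q247.AP
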