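import Pool.Agent.Q247.AP.NT3

/-!
# The integer model of the packing

A member of the packing is coded by `(a, t)` with `a ∈ ℤ⁴`, `t ∈ ℤ`.  The 24 starting members are
the roots (`∑ aᵢ² = 2`, `t = 1`); the reflection in the dual vector `w` (`∑ wᵢ² = 4`) sends `(a, t)`
to `(a + 3 κ w, t + 4 κ)` with `2 κ = 2 t - a · w`.
-/

set_option autoImplicit false

namespace Pool.Agent.Q247.AP

/-- The orbit, in integer coordinates. -/
inductive Rt : (Fin 4 → ℤ) → ℤ → Prop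
  | base (u : Fin 4 → ℤ) (h : ∑ i, u i ^ 2 = 2) : Rt u 1
  | step (a : Fin 4 → ℤ) (t : ℤ) (w : Fin 4 → ℤ) (k : ℤ) (hr : Rt a t) (hw : ∑ i, w i ^ 2 = 4)
      (hk : 2 * k = 2 * t - ∑ i, a i * w i) : Rt (fun i => a i + 3 * k * w i) (t + 4 * k)

/-- The curvature functional. -/
def curv (a : Fin 4 → ℤ) (t : ℤ) : ℤ := 3 * t - (2 * a 0 + a 1 + a 2)

lemma four_par (w : Fin 4 → ℤ) (hw : ∑ i, w i ^ 2 = 4) :
    2 ∣ w 1 - w 0 ∧ 2 ∣ w 2 - w 0 ∧ 2 ∣ w 3 - w 0 := by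
  have z4 : ∀ n : ℤ, (2 : ℤ) ∣ n ↔ (((2 * n : ℤ)) : ZMod 4) = 0 := by
    intro n
    rw [ZMod.intCast_zmod_eq_zero_iff_dvd (2 * n) 4]
    constructor
    · rintro ⟨k, rfl⟩; exact ⟨k, by push_cast; ring⟩
    · rintro ⟨k, hk⟩; push_cast at hk; exact ⟨k, by linarith⟩
  rw [Fin.sum_univ_four] at hw
  have h1 : (((w 0 ^ 2 + w 1 ^ 2 + w 2 ^ 2 + w 3 ^ 2 : ℤ)) : ZMod 4) = 0 := by rw [hw]; decide
  rw [z4, z4, z4]
  push_cast at h1 ⊢
  revert h1
  generalize (w 0 : ZMod 4) = a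
  generalize (w 1 : ZMod 4) = b
  generalize (w 2 : ZMod 4) = c
  generalize (w 3 : ZMod 4) = d
  revert a b c d
  decide

lemma even_dot (a w : Fin 4 → ℤ) (ha : 2 ∣ ∑ i, a i) (hw : ∑ i, w i ^ 2 = 4) :
    2 ∣ ∑ i, a i * w i := by
  obtain ⟨⟨k1, h1⟩, ⟨k2, h2⟩, ⟨k3, h3⟩⟩ := four_par w hw
  obtain ⟨s, hs⟩ := ha
  rw [Fin.sum_univ_four] at hs ⊢
  have e1 : w 1 = w 0 + 2 * k1 := by linarith
  have e2 : w 2 = w 0 + 2 * k2 := by linarith
  have e3 : w 3 = w 0 + 2 * k3 := by linarith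
  rw [e1, e2, e3]
  exact ⟨s * w 0 + a 1 * k1 + a 2 * k2 + a 3 * k3, by linear_combination w 0 * hs⟩

/-- Invariants of the orbit. -/
lemma Rt.inv {a : Fin 4 → ℤ} {t : ℤ} (h : Rt a t) :
    2 ∣ ∑ i, a i ∧ 2 * ∑ i, a i ^ 2 = 3 * t ^ 2 + 1 ∧ 1 ≤ t := by
  induction h with
  | base u hu =>
    refine ⟨?_, by rw [hu]; norm_num, le_refl _⟩
    rw [Fin.sum_univ_four] at hu ⊢
    have par : ∀ n : ℤ, 2 ∣ n ^ 2 - n := by
      intro n
      obtain ⟨k, hk⟩ := Int.even_mul_pred_self n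
      exact ⟨k, by linarith [hk, (by ring : n ^ 2 - n = n * (n - 1))]⟩
    have p0 := par (u 0)
    have p1 := par (u 1)
    have p2 := par (u 2)
    have p3 := par (u 3)
    omega
  | step a t w k hr hw hk ih =>
    obtain ⟨i1, i2, i3⟩ := ih
    have hcs : (∑ i, a i * w i) ^ 2 ≤ (∑ i, a i ^ 2) * ∑ i, w i ^ 2 :=
      Finset.sum_mul_sq_le_sq_mul_sq _ _ _
    obtain ⟨⟨k1, h1⟩, ⟨k2, h2⟩, ⟨k3, h3⟩⟩ := four_par w hw
    rw [hw] at hcs
    simp only [Fin.sum_univ_four] at *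
    refine ⟨?_, ?_, ?_⟩
    · obtain ⟨s, hs⟩ := i1
      exact ⟨s + 3 * k * (2 * w 0 + k1 + k2 + k3), by linear_combination hs +
        3 * k * (h1 + h2 + h3)⟩
    · linear_combination i2 + 18 * k ^ 2 * hw + 12 * k * hk
    · by_contra hcon
      have ht : t + 4 * k ≤ 0 := by omega
      set D := a 0 * w 0 + a 1 * w 1 + a 2 * w 2 + a 3 * w 3 with hD
      have h5 : 5 * t ≤ 2 * D := by linarith
      have h6 : D ^ 2 ≤ 6 * t ^ 2 + 2 := by linarith
      have h7 : t ^ 2 ≤ 8 := by nlinarith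
      have h8 : t ≤ 2 := by nlinarith
      interval_cases t
      · have : D ≤ 2 := by nlinarith
        omega
      · omega

/-- Curvatures are nonnegative. -/
lemma Rt.curv_nonneg {a : Fin 4 → ℤ} {t : ℤ} (h : Rt a t) : 0 ≤ curv a t := by
  obtain ⟨-, h2, h3⟩ := h.inv
  rw [Fin.sum_univ_four] at h2
  unfold curv
  by_contra hcon
  push Not at hcon
  have h4 : 3 * t + 1 ≤ 2 * a 0 + a 1 + a 2 := by linarith
  have h5 : (2 * a 0 + a 1 + a 2) ^ 2 ≤ 9 * t ^ 2 + 3 := by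
    nlinarith [sq_nonneg (a 0 - 2 * a 1), sq_nonneg (a 0 - 2 * a 2), sq_nonneg (a 1 - a 2),
      sq_nonneg (a 3)]
  nlinarith

/-- An orthogonal frame of roots. -/
structure Frame (u v1 v2 v3 : Fin 4 → ℤ) : Prop where
  n0 : ∑ i, u i ^ 2 = 2
  n1 : ∑ i, v1 i ^ 2 = 2
  n2 : ∑ i, v2 i ^ 2 = 2
  n3 : ∑ i, v3 i ^ 2 = 2
  o1 : ∑ i, u i * v1 i = 0
  o2 : ∑ i, u i * v2 i = 0
  o3 : ∑ i, u i * v3 i = 0
  o12 : ∑ i, v1 i * v2 i = 0
  o13 : ∑ i, v1 i * v3 i = 0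
  o23 : ∑ i, v2 i * v3 i = 0

lemma Frame.swap12 {u v1 v2 v3 : Fin 4 → ℤ} (h : Frame u v1 v2 v3) : Frame u v2 v1 v3 :=
  ⟨h.n0, h.n2, h.n1, h.n3, h.o2, h.o1, h.o3, by rw [← h.o12]; simp only [mul_comm], h.o23, h.o13⟩

lemma Frame.swap13 {u v1 v2 v3 : Fin 4 → ℤ} (h : Frame u v1 v2 v3) : Frame u v3 v2 v1 :=
  ⟨h.n0, h.n3, h.n2, h.n1, h.o3, h.o2, h.o1, by rw [← h.o23]; simp only [mul_comm],
    by rw [← h.o13]; simp only [mul_comm], by rw [← h.o12]; simp only [mul_comm]⟩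

lemma Frame.neg1 {u v1 v2 v3 : Fin 4 → ℤ} (h : Frame u v1 v2 v3) :
    Frame u (fun i => -v1 i) v2 v3 :=
  ⟨h.n0, by simpa using h.n1, h.n2, h.n3, by simpa using h.o1, h.o2, h.o3, by simpa using h.o12,
    by simpa using h.o13, h.o23⟩

/-- In a primitive solution of `x² + y² + z² = 3 τ²` all entries have the same parity. -/
lemma par_sol {x y z τ : ℤ} (h : x ^ 2 + y ^ 2 + z ^ 2 = 3 * τ ^ 2) :
    2 ∣ x - τ ∧ 2 ∣ y - τ ∧ 2 ∣ z - τ := by
  have z4 : ∀ n : ℤ, (2 : ℤ) ∣ n ↔ (((2 * n : ℤ)) : ZMod 4) = 0 := by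
    intro n
    rw [ZMod.intCast_zmod_eq_zero_iff_dvd (2 * n) 4]
    constructor
    · rintro ⟨k, rfl⟩; exact ⟨k, by push_cast; ring⟩
    · rintro ⟨k, hk⟩; push_cast at hk; exact ⟨k, by linarith⟩
  have h1 : (((x ^ 2 + y ^ 2 + z ^ 2 : ℤ)) : ZMod 4) = ((3 * τ ^ 2 : ℤ) : ZMod 4) := by rw [h]
  rw [z4, z4, z4]
  push_cast at h1 ⊢
  revert h1
  generalize (x : ZMod 4) = a
  generalize (y : ZMod 4) = b
  generalize (z : ZMod 4) = c
  generalize (τ : ZMod 4) = d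
  revert a b c d
  decide

/-- **Descent.**  Every primitive isotropic vector of the frame of `u` gives a member tangent to
the member `(u, 1)`. -/
lemma descent : ∀ N : ℕ, ∀ (u v1 v2 v3 : Fin 4 → ℤ) (_ : Frame u v1 v2 v3) (x y z τ : ℤ),
    0 < τ → τ ≤ N → x ^ 2 + y ^ 2 + z ^ 2 = 3 * τ ^ 2 →
    (∀ q : ℤ, Prime q → ¬ (q ∣ x ∧ q ∣ y ∧ q ∣ z ∧ q ∣ τ)) →
    ∀ a : Fin 4 → ℤ, (∀ i, 2 * a i = (3 * τ - 2) * u i + x * v1 i + y * v2 i + z * v3 i) →
    Rt a (2 * τ - 1) := by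
  intro N
  induction N with
  | zero => intro u v1 v2 v3 _ x y z τ h1 h2; exfalso; push_cast at h2; linarith
  | succ N ih =>
    -- the case where the first coordinate is larger than `τ`
    have main : ∀ (u v1 v2 v3 : Fin 4 → ℤ) (_ : Frame u v1 v2 v3) (x y z τ : ℤ),
        0 < τ → τ ≤ (N + 1 : ℕ) → x ^ 2 + y ^ 2 + z ^ 2 = 3 * τ ^ 2 →
        (∀ q : ℤ, Prime q → ¬ (q ∣ x ∧ q ∣ y ∧ q ∣ z ∧ q ∣ τ)) → τ < x →
        ∀ a : Fin 4 → ℤ, (∀ i, 2 * a i = (3 * τ - 2) * u i + x * v1 i + y * v2 i + z * v3 i) →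
        Rt a (2 * τ - 1) := by
      intro u v1 v2 v3 hF x y z τ hτ hτN hsol hprim hx a ha
      obtain ⟨⟨k, hk⟩, -, -⟩ := par_sol hsol
      have hkpos : 0 < k := by linarith
      -- x - τ = 2 k
      have hx' : x = τ + 2 * k := by linarith
      have hlt : x < 2 * τ := by nlinarith [sq_nonneg y, sq_nonneg z]
      have hsol' : (3 * τ - 2 * x) ^ 2 + y ^ 2 + z ^ 2 = 3 * (2 * τ - x) ^ 2 := by
        linear_combination hsol
      have hprim' : ∀ q : ℤ, Prime q → ¬ (q ∣ 3 * τ - 2 * x ∧ q ∣ y ∧ q ∣ z ∧ q ∣ 2 * τ - x) := by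
        rintro q hq ⟨g1, g2, g3, g4⟩
        apply hprim q hq
        have g5 : q ∣ x := by
          have : x = 3 * (2 * τ - x) - 2 * (3 * τ - 2 * x) := by ring
          rw [this]
          exact dvd_sub (Dvd.dvd.mul_left g4 _) (Dvd.dvd.mul_left g1 _)
        have g6 : q ∣ τ := by
          have : τ = 2 * (2 * τ - x) - (3 * τ - 2 * x) := by ring
          rw [this]
          exact dvd_sub (Dvd.dvd.mul_left g4 _) g1
        exact ⟨g5, g2, g3, g6⟩
      have hr := ih u v1 v2 v3 hF (3 * τ - 2 * x) y z (2 * τ - x) (by linarith)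
        (by push_cast at hτN; omega) hsol' hprim' (fun i => a i - 3 * k * (u i + v1 i)) (by
          intro i
          have := ha i
          rw [hx'] at this ⊢
          linear_combination this)
      have hst := Rt.step _ _ (fun i => u i + v1 i) k hr (by
        have e0 := hF.n0
        have e1 := hF.n1
        have e2 := hF.o1
        rw [Fin.sum_univ_four] at *
        linear_combination e0 + e1 + 2 * e2) (by
        have e0 := hF.n0
        have e1 := hF.n1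
        have e2 := hF.o1
        have e3 := hF.o2
        have e4 := hF.o3
        have e5 := hF.o12
        have e6 := hF.o13
        have a0 := ha 0
        have a1 := ha 1
        have a2 := ha 2
        have a3 := ha 3
        rw [Fin.sum_univ_four] at *
        have key : 2 * (2 * k) = 2 * (2 * (2 * (2 * τ - x) - 1) -
            ((a 0 - 3 * k * (u 0 + v1 0)) * (u 0 + v1 0) + (a 1 - 3 * k * (u 1 + v1 1)) *
            (u 1 + v1 1) + (a 2 - 3 * k * (u 2 + v1 2)) * (u 2 + v1 2) +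
            (a 3 - 3 * k * (u 3 + v1 3)) * (u 3 + v1 3))) := by
          rw [hx'] at a0 a1 a2 a3 ⊢
          linear_combination (-6 * k + (3 * τ - 2)) * e0 + (-6 * k + (τ + 2 * k)) * e1 +
            (-12 * k + (3 * τ - 2) + (τ + 2 * k)) * e2 + y * e3 + z * e4 + y * e5 + z * e6 +
            (u 0 + v1 0) * a0 + (u 1 + v1 1) * a1 + (u 2 + v1 2) * a2 + (u 3 + v1 3) * a3
        linarith)
      have e1 : (fun i => (fun i => a i - 3 * k * (u i + v1 i)) i + 3 * k *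
          (fun i => u i + v1 i) i) = a := by
        funext i; ring
      have e2 : 2 * (2 * τ - x) - 1 + 4 * k = 2 * τ - 1 := by rw [hx']; ring
      rw [e1, e2] at hst
      exact hst
    intro u v1 v2 v3 hF x y z τ hτ hτN hsol hprim a ha
    rcases lt_or_ge τ x with h | hx1
    · exact main u v1 v2 v3 hF x y z τ hτ hτN hsol hprim h a ha
    rcases lt_or_ge τ (-x) with h | hx2
    · refine main u (fun i => -v1 i) v2 v3 hF.neg1 (-x) y z τ hτ hτN (by rw [← hsol]; ring) ?_ h a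
        (fun i => by rw [ha i]; ring)
      rintro q hq ⟨g1, g2⟩
      exact hprim q hq ⟨(dvd_neg).1 g1, g2⟩
    rcases lt_or_ge τ y with h | hy1
    · refine main u v2 v1 v3 hF.swap12 y x z τ hτ hτN (by rw [← hsol]; ring) ?_ h a
        (fun i => by rw [ha i]; ring)
      rintro q hq ⟨g1, g2, g3⟩
      exact hprim q hq ⟨g2, g1, g3⟩
    rcases lt_or_ge τ (-y) with h | hy2
    · refine main u (fun i => -v2 i) v1 v3 hF.swap12.neg1 (-y) x z τ hτ hτN
        (by rw [← hsol]; ring) ?_ h a (fun i => by rw [ha i]; ring)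
      rintro q hq ⟨g1, g2, g3⟩
      exact hprim q hq ⟨g2, (dvd_neg).1 g1, g3⟩
    rcases lt_or_ge τ z with h | hz1
    · refine main u v3 v2 v1 hF.swap13 z y x τ hτ hτN (by rw [← hsol]; ring) ?_ h a
        (fun i => by rw [ha i]; ring)
      rintro q hq ⟨g1, g2, g3, g4⟩
      exact hprim q hq ⟨g3, g2, g1, g4⟩
    rcases lt_or_ge τ (-z) with h | hz2
    · refine main u (fun i => -v3 i) v2 v1 hF.swap13.neg1 (-z) y x τ hτ hτN
        (by rw [← hsol]; ring) ?_ h a (fun i => by rw [ha i]; ring)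
      rintro q hq ⟨g1, g2, g3, g4⟩
      exact hprim q hq ⟨g3, g2, (dvd_neg).1 g1, g4⟩
    -- all coordinates are at most `τ` in absolute value, so they are equal to `±τ`
    have hxs : x ^ 2 ≤ τ ^ 2 := by nlinarith
    have hys : y ^ 2 ≤ τ ^ 2 := by nlinarith
    have hzs : z ^ 2 ≤ τ ^ 2 := by nlinarith
    have hx : x ^ 2 = τ ^ 2 := by linarith
    have hy : y ^ 2 = τ ^ 2 := by linarith
    have hz : z ^ 2 = τ ^ 2 := by linarith
    have hτ1 : τ = 1 := by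
      by_contra hne
      have h2 : τ.natAbs ≠ 1 := by omega
      obtain ⟨q, hq, hqd⟩ := Nat.exists_prime_and_dvd h2
      have hqZ : Prime (q : ℤ) := Nat.prime_iff_prime_int.1 hq
      have hqτ : (q : ℤ) ∣ τ := Int.natCast_dvd.2 hqd
      have f : ∀ v : ℤ, v ^ 2 = τ ^ 2 → (q : ℤ) ∣ v := by
        intro v hv
        apply hqZ.dvd_of_dvd_pow (n := 2)
        rw [hv]
        exact Dvd.dvd.pow hqτ (by norm_num)
      exact hprim q hqZ ⟨f x hx, f y hy, f z hz, hqτ⟩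
    subst hτ1
    have hb : ∑ i, a i ^ 2 = 2 := by
      have e0 := hF.n0
      have e1 := hF.n1
      have e2 := hF.n2
      have e3 := hF.n3
      have f1 := hF.o1
      have f2 := hF.o2
      have f3 := hF.o3
      have f12 := hF.o12
      have f13 := hF.o13
      have f23 := hF.o23
      have a0 := ha 0
      have a1 := ha 1
      have a2 := ha 2
      have a3 := ha 3
      rw [Fin.sum_univ_four] at *
      have key : 4 * (a 0 ^ 2 + a 1 ^ 2 + a 2 ^ 2 + a 3 ^ 2) = 8 := by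
        have e : 4 * (a 0 ^ 2 + a 1 ^ 2 + a 2 ^ 2 + a 3 ^ 2) =
          (2 * a 0) ^ 2 + (2 * a 1) ^ 2 + (2 * a 2) ^ 2 + (2 * a 3) ^ 2 := by ring
        rw [e, a0, a1, a2, a3]
        linear_combination e0 + x ^ 2 * e1 + y ^ 2 * e2 + z ^ 2 * e3 + 2 * x * f1 + 2 * y * f2 +
          2 * z * f3 + 2 * x * y * f12 + 2 * x * z * f13 + 2 * y * z * f23 + 2 * hx + 2 * hy +
          2 * hz
      linarith
    have := Rt.base a hb
    simpa using this

end Pool.Agent.Q247.AP
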