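import Pool.Agent.Q247.AP.Stereo

/-!
# The vertices of the 24-cell and of its polar
-/

set_option autoImplicit false

namespace Pool.Agent.Q247.AP

open Finset

/-- The 24 vertices of the polar of the standard cell. -/
def stdDual : Set E4 := {v : E4 | ∃ w : Fin 4 → ℤ, ∑ i, w i ^ 2 = 4 ∧
  ∀ i, v i = √(3 / 2) / 2 * w i}

lemma sq32 : (√(3 / 2) : ℝ) ^ 2 = 3 / 2 := Real.sq_sqrt (by norm_num)

lemma sq23 : (√(2 / 3) : ℝ) ^ 2 = 2 / 3 := Real.sq_sqrt (by norm_num)

lemma s32_pos : (0 : ℝ) < √(3 / 2) := Real.sqrt_pos.2 (by norm_num)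

lemma s23_pos : (0 : ℝ) < √(2 / 3) := Real.sqrt_pos.2 (by norm_num)

lemma s23_mul_s32 : (√(2 / 3) : ℝ) * √(3 / 2) = 1 := by
  rw [← Real.sqrt_mul (by norm_num)]
  norm_num

/-- A root has exactly two nonzero coordinates, which are `±1`. -/
lemma root_structure {u : Fin 4 → ℤ} (hu : ∑ i, u i ^ 2 = 2) : ∃ i j : Fin 4, i ≠ j ∧
    |u i| = 1 ∧ |u j| = 1 ∧ ∀ k, k ≠ i → k ≠ j → u k = 0 := by
  have hb : ∀ i, u i ^ 2 ≤ 2 := by
    intro i
    rw [← hu]
    exact Finset.single_le_sum (f := fun i => u i ^ 2) (fun k _ => sq_nonneg _)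
      (Finset.mem_univ i)
  have hone : ∀ i, u i ≠ 0 → u i ^ 2 = 1 := by
    intro i hi
    have h1 := hb i
    have h2 : u i < 2 := by nlinarith
    have h3 : -2 < u i := by nlinarith
    have h4 : u i = 1 ∨ u i = -1 := by omega
    rcases h4 with h | h <;> rw [h] <;> norm_num
  have hcard : (univ.filter (fun i => u i ≠ 0)).card = 2 := by
    have h1 : ∑ i, u i ^ 2 = ∑ i ∈ univ.filter (fun i => u i ≠ 0), u i ^ 2 := by
      rw [Finset.sum_filter]
      apply Finset.sum_congr rfl
      intro i _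
      by_cases h : u i = 0
      · simp [h]
      · simp [h]
    have h2 : ∑ i ∈ univ.filter (fun i => u i ≠ 0), u i ^ 2 =
        ∑ i ∈ univ.filter (fun i => u i ≠ 0), (1 : ℤ) :=
      Finset.sum_congr rfl (fun i hi => hone i (Finset.mem_filter.1 hi).2)
    rw [h1, h2] at hu
    simp only [Finset.sum_const, nsmul_eq_mul, mul_one] at hu
    exact_mod_cast hu
  obtain ⟨i, j, hij, hs⟩ := Finset.card_eq_two.1 hcard
  have hi : u i ≠ 0 := by
    have : i ∈ univ.filter (fun i => u i ≠ 0) := by rw [hs]; simp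
    exact (Finset.mem_filter.1 this).2
  have hj : u j ≠ 0 := by
    have : j ∈ univ.filter (fun i => u i ≠ 0) := by rw [hs]; simp
    exact (Finset.mem_filter.1 this).2
  have habs : ∀ k, u k ≠ 0 → |u k| = 1 := by
    intro k hk
    have := hone k hk
    rw [← sq_abs] at this
    have h0 := abs_nonneg (u k)
    nlinarith
  refine ⟨i, j, hij, habs i hi, habs j hj, ?_⟩
  intro k hki hkj
  by_contra h
  have : k ∈ univ.filter (fun i => u i ≠ 0) := Finset.mem_filter.2 ⟨Finset.mem_univ _, h⟩
  rw [hs] at this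
  simp only [Finset.mem_insert, Finset.mem_singleton] at this
  rcases this with h1 | h1
  · exact hki h1
  · exact hkj h1

/-- The polar body in coordinates. -/
def PB : Set E4 := {y : E4 | ∀ i j : Fin 4, i ≠ j → |y i| + |y j| ≤ √(3 / 2)}

lemma inner_sum (x y : E4) : inner ℝ x y = ∑ i, x i * y i := by
  rw [inner4, Fin.sum_univ_four]

lemma polar_roots : polarBody stdRoots = PB := by
  ext y
  constructor
  · intro hy i j hij
    -- signs
    have hs : ∀ k : Fin 4, ∃ e : ℤ, e ^ 2 = 1 ∧ (e : ℝ) * y k = |y k| := by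
      intro k
      rcases abs_cases (y k) with ⟨h, _⟩ | ⟨h, _⟩
      · exact ⟨1, by norm_num, by rw [h]; simp⟩
      · exact ⟨-1, by norm_num, by rw [h]; simp⟩
    obtain ⟨e, he, hey⟩ := hs i
    obtain ⟨f, hf, hfy⟩ := hs j
    set u : Fin 4 → ℤ := fun k => if k = i then e else if k = j then f else 0 with hu
    have hu2 : ∑ k, u k ^ 2 = 2 := by
      have : ∀ k, u k ^ 2 = (if k = i then 1 else 0) + (if k = j then 1 else 0) := by
        intro k
        simp only [hu]
        by_cases h1 : k = i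
        · subst h1; simp [he, hij]
        · by_cases h2 : k = j
          · subst h2; simp [hf, h1]
          · simp [h1, h2]
      simp only [this]
      rw [Finset.sum_add_distrib]
      simp
    have hmem : (WithLp.toLp 2 (fun k => √(2 / 3) * (u k : ℝ)) : E4) ∈ stdRoots :=
      ⟨u, hu2, fun k => rfl⟩
    have h1 := hy _ hmem
    rw [inner_sum] at h1
    have h2 : ∑ k, (WithLp.toLp 2 (fun k => √(2 / 3) * (u k : ℝ)) : E4) k * y k =
        √(2 / 3) * (|y i| + |y j|) := by
      have : ∀ k, (WithLp.toLp 2 (fun k => √(2 / 3) * (u k : ℝ)) : E4) k * y k =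
          (if k = i then √(2 / 3) * |y i| else 0) + (if k = j then √(2 / 3) * |y j| else 0) := by
        intro k
        show √(2 / 3) * (u k : ℝ) * y k = _
        simp only [hu]
        by_cases g1 : k = i
        · subst g1
          simp only [if_true, hij, if_false, add_zero]
          rw [mul_assoc, hey]
        · by_cases g2 : k = j
          · subst g2
            simp only [g1, if_false, if_true, zero_add]
            rw [mul_assoc, hfy]
          · simp [g1, g2]
      simp only [this]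
      rw [Finset.sum_add_distrib]
      simp
      ring
    rw [h2] at h1
    have h3 := s23_mul_s32
    have h4 := s23_pos
    by_contra hcon
    push Not at hcon
    have := mul_lt_mul_of_pos_left hcon h4
    linarith
  · rintro hy x ⟨u, hu, hx⟩
    obtain ⟨i, j, hij, h1, h2, h3⟩ := root_structure hu
    rw [inner_sum]
    have h4 : ∀ k, x k * y k ≤ (if k = i then √(2 / 3) * |y i| else 0) +
        (if k = j then √(2 / 3) * |y j| else 0) := by
      intro k
      rw [hx k]
      have habs : √(2 / 3) * (u k : ℝ) * y k ≤ √(2 / 3) * (|(u k : ℝ)| * |y k|) := by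
        rw [mul_assoc]
        apply mul_le_mul_of_nonneg_left _ s23_pos.le
        rw [← abs_mul]
        exact le_abs_self _
      by_cases k1 : k = i
      · subst k1
        have h5 : |(u k : ℝ)| = 1 := by rw [← Int.cast_abs, h1]; norm_num
        rw [h5, one_mul] at habs
        simp only [if_true, hij, if_false, add_zero]
        exact habs
      · by_cases k2 : k = j
        · subst k2
          have h5 : |(u k : ℝ)| = 1 := by rw [← Int.cast_abs, h2]; norm_num
          rw [h5, one_mul] at habs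
          simp only [k1, if_false, if_true, zero_add]
          exact habs
        · rw [h3 k k1 k2]
          simp [k1, k2]
    have h5 : ∑ k, x k * y k ≤ √(2 / 3) * (|y i| + |y j|) := by
      refine le_trans (Finset.sum_le_sum (fun k _ => h4 k)) (le_of_eq ?_)
      rw [Finset.sum_add_distrib]
      simp
      ring
    have h6 := mul_le_mul_of_nonneg_left (hy i j hij) s23_pos.le
    rw [s23_mul_s32] at h6
    linarith

lemma PB_ball_aux {a b s y1 y2 y3 : ℝ} (h1 : |y1| ≤ b) (h2 : |y2| ≤ b) (h3 : |y3| ≤ b)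
    (hba : b ≤ a) (hs : a + b ≤ s) : a ^ 2 + y1 ^ 2 + y2 ^ 2 + y3 ^ 2 ≤ s ^ 2 := by
  have hb : 0 ≤ b := le_trans (abs_nonneg _) h1
  have e1 : y1 ^ 2 ≤ b ^ 2 := by rw [← sq_abs]; exact pow_le_pow_left₀ (abs_nonneg _) h1 2
  have e2 : y2 ^ 2 ≤ b ^ 2 := by rw [← sq_abs]; exact pow_le_pow_left₀ (abs_nonneg _) h2 2
  have e3 : y3 ^ 2 ≤ b ^ 2 := by rw [← sq_abs]; exact pow_le_pow_left₀ (abs_nonneg _) h3 2
  have e4 : (a + b) ^ 2 ≤ s ^ 2 := pow_le_pow_left₀ (by linarith) hs 2
  nlinarith

lemma PB_ball : PB ⊆ Metric.closedBall (0 : E4) (√(3 / 2)) := by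
  intro y hy
  rw [mem_closedBall_zero_iff]
  apply (pow_le_pow_iff_left₀ (norm_nonneg _) s32_pos.le (two_ne_zero)).1
  rw [normsq4]
  obtain ⟨i, -, hi⟩ := Finset.exists_max_image (univ : Finset (Fin 4)) (fun k => |y k|)
    ⟨0, Finset.mem_univ _⟩
  have hmax : ∀ k, |y k| ≤ |y i| := fun k => hi k (Finset.mem_univ _)
  have hother : ∀ k, k ≠ i → |y k| ≤ min (|y i|) (√(3 / 2) - |y i|) := by
    intro k hk
    apply le_min (hmax k)
    have := hy k i hk
    linarith
  have hb : min (|y i|) (√(3 / 2) - |y i|) ≤ |y i| := min_le_left _ _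
  have hs : |y i| + min (|y i|) (√(3 / 2) - |y i|) ≤ √(3 / 2) := by
    have := min_le_right (|y i|) (√(3 / 2) - |y i|)
    linarith
  fin_cases i
  · have := PB_ball_aux (hother 1 (by decide)) (hother 2 (by decide)) (hother 3 (by decide)) hb hs
    simp only [Fin.zero_eta, sq_abs] at this
    linarith
  · have := PB_ball_aux (hother 0 (by decide)) (hother 2 (by decide)) (hother 3 (by decide)) hb hs
    simp only [Fin.mk_one, sq_abs] at this
    linarith
  · have := PB_ball_aux (hother 0 (by decide)) (hother 1 (by decide)) (hother 3 (by decide)) hb hs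
    simp only [Fin.reduceFinMk, sq_abs] at this
    linarith
  · have := PB_ball_aux (hother 0 (by decide)) (hother 1 (by decide)) (hother 2 (by decide)) hb hs
    simp only [Fin.reduceFinMk, sq_abs] at this
    linarith

lemma dual_norm {v : E4} (hv : v ∈ stdDual) : ‖v‖ = √(3 / 2) := by
  obtain ⟨w, hw, h⟩ := hv
  have h1 : ‖v‖ ^ 2 = √(3 / 2) ^ 2 := by
    rw [normsq4, h 0, h 1, h 2, h 3]
    have hw' : ((w 0 : ℝ)) ^ 2 + (w 1 : ℝ) ^ 2 + (w 2 : ℝ) ^ 2 + (w 3 : ℝ) ^ 2 = 4 := by
      rw [Fin.sum_univ_four] at hw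
      exact_mod_cast hw
    linear_combination (√(3 / 2) ^ 2 / 4) * hw'
  exact (pow_left_inj₀ (norm_nonneg _) s32_pos.le (two_ne_zero)).1 h1

lemma dual_mem_PB {v : E4} (hv : v ∈ stdDual) : v ∈ PB := by
  obtain ⟨w, hw, h⟩ := hv
  intro i j hij
  rw [h i, h j, abs_mul, abs_mul, abs_of_pos (by have := s32_pos; positivity :
    (0 : ℝ) < √(3 / 2) / 2)]
  have h1 : w i ^ 2 + w j ^ 2 ≤ 4 := by
    rw [← hw]
    have : ∑ k ∈ ({i, j} : Finset (Fin 4)), w k ^ 2 ≤ ∑ k, w k ^ 2 :=
      Finset.sum_le_sum_of_subset_of_nonneg (Finset.subset_univ _) (fun k _ _ => sq_nonneg _)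
    rwa [Finset.sum_pair hij] at this
  have h2 : |w i| + |w j| ≤ 2 := by
    by_contra hcon
    push Not at hcon
    rw [← sq_abs (w i), ← sq_abs (w j)] at h1
    have a1 := abs_nonneg (w i)
    have a2 := abs_nonneg (w j)
    nlinarith [sq_nonneg (|w i| - |w j|)]
  have h3 : |(w i : ℝ)| + |(w j : ℝ)| ≤ 2 := by
    have : ((|w i| + |w j| : ℤ) : ℝ) ≤ 2 := by exact_mod_cast h2
    push_cast at this
    exact this
  have := s32_pos
  nlinarith

end Pool.Agent.Q247.AP
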