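import Pool.Agent.Q247.AP.Poly

/-!
# The vertices of the 24-cell and of its polar, continued
-/

set_option autoImplicit false

namespace Pool.Agent.Q247.AP

open Finset

/-- An extreme point admits no two-sided perturbation. -/
lemma no_perturb {S : Set E4} {y d : E4} (hy : y ∈ S.extremePoints ℝ) (h1 : y + d ∈ S)
    (h2 : y - d ∈ S) : d = 0 := by
  rw [mem_extremePoints] at hy
  have hseg : y ∈ openSegment ℝ (y + d) (y - d) := by
    refine ⟨1 / 2, 1 / 2, by norm_num, by norm_num, by norm_num, ?_⟩
    rw [smul_add, smul_sub]
    have : (1 / 2 : ℝ) • y + (1 / 2 : ℝ) • y = y := by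
      rw [← add_smul]; norm_num
    calc (1 / 2 : ℝ) • y + (1 / 2 : ℝ) • d + ((1 / 2 : ℝ) • y - (1 / 2 : ℝ) • d)
        = (1 / 2 : ℝ) • y + (1 / 2 : ℝ) • y := by abel
      _ = y := this
  have := (hy.2 _ h1 _ h2 hseg).1
  simpa using this

/-- Every coordinate of an extreme point is in an active constraint. -/
lemma active {y : E4} (hy : y ∈ PB.extremePoints ℝ) (i : Fin 4) :
    ∃ j, j ≠ i ∧ |y i| + |y j| = √(3 / 2) := by
  by_contra hcon
  push Not at hcon
  have hyP : y ∈ PB := hy.1
  obtain ⟨j0, hj0, hmax⟩ := Finset.exists_max_image (univ.erase i) (fun k => |y k|)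
    ⟨i + 1, by
      rw [Finset.mem_erase]
      refine ⟨?_, Finset.mem_univ _⟩
      fin_cases i <;> decide⟩
  have hj0i : j0 ≠ i := (Finset.mem_erase.1 hj0).1
  have hlt : |y i| + |y j0| < √(3 / 2) := lt_of_le_of_ne (hyP i j0 hj0i.symm) (hcon j0 hj0i)
  set δ : ℝ := √(3 / 2) - (|y i| + |y j0|) with hδ
  have hδpos : 0 < δ := by linarith
  have hother : ∀ k, k ≠ i → |y i| + δ + |y k| ≤ √(3 / 2) := by
    intro k hk
    have := hmax k (Finset.mem_erase.2 ⟨hk, Finset.mem_univ _⟩)
    linarith
  have hmem : ∀ e : ℝ, |e| = δ → y + EuclideanSpace.single i e ∈ PB := by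
    intro e he k l hkl
    have hk : ∀ k, |(y + EuclideanSpace.single i e) k| ≤ |y k| + (if k = i then δ else 0) := by
      intro k
      by_cases h : k = i
      · subst h
        have : (y + EuclideanSpace.single k e) k = y k + e := by simp
        rw [this, if_pos rfl, ← he]
        exact abs_add_le _ _
      · have : (y + EuclideanSpace.single i e) k = y k := by simp [h]
        rw [this, if_neg h, add_zero]
    have h1 := hk k
    have h2 := hk l
    by_cases hki : k = i
    · subst hki
      rw [if_pos rfl] at h1
      rw [if_neg hkl.symm] at h2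
      have := hother l hkl.symm
      linarith
    · by_cases hli : l = i
      · subst hli
        rw [if_pos rfl] at h2
        rw [if_neg hkl] at h1
        have := hother k hkl
        linarith
      · rw [if_neg hki] at h1
        rw [if_neg hli] at h2
        have := hyP k l hkl
        linarith
  have h1 := hmem δ (abs_of_pos hδpos)
  have h2 := hmem (-δ) (by rw [abs_neg, abs_of_pos hδpos])
  have h3 : EuclideanSpace.single i (-δ) = -(EuclideanSpace.single i δ : E4) := by
    ext k
    by_cases h : k = i
    · subst h; simp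
    · simp [h]
  rw [h3, ← sub_eq_add_neg] at h2
  have h4 := no_perturb hy h1 h2
  have h5 : (EuclideanSpace.single i δ : E4) i = 0 := by rw [h4]; rfl
  simp at h5
  exact hδpos.ne' h5

lemma half_sign {s v : ℝ} (h : |v| = s / 2) : ∃ w : ℤ, w ^ 2 = 1 ∧ v = s / 2 * w := by
  rcases abs_cases v with ⟨h1, _⟩ | ⟨h1, _⟩
  · exact ⟨1, by norm_num, by rw [← h, h1]; simp⟩
  · exact ⟨-1, by norm_num, by rw [← h, h1]; simp⟩

lemma extreme_PB_subset : PB.extremePoints ℝ ⊆ stdDual := by
  intro y hy
  have hyP : y ∈ PB := hy.1
  have hs := s32_pos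
  set s : ℝ := √(3 / 2) with hsdef
  by_cases hA : ∀ i, |y i| ≤ s / 2
  · have h1 : ∀ i, |y i| = s / 2 := by
      intro i
      obtain ⟨j, -, hj⟩ := active hy i
      have h2 := hA i
      have h3 := hA j
      rw [← hsdef] at hj
      linarith
    choose w hw1 hw2 using fun i => half_sign (h1 i)
    refine ⟨w, ?_, fun i => hw2 i⟩
    rw [Fin.sum_univ_four, hw1, hw1, hw1, hw1]
    norm_num
  · push Not at hA
    obtain ⟨i, hi⟩ := hA
    have hb : ∀ j, j ≠ i → |y j| = s - |y i| := by
      intro j hj
      have h1 := hyP j i hj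
      obtain ⟨k, hk, hke⟩ := active hy j
      rw [← hsdef] at h1 hke
      by_cases hki : k = i
      · subst hki; linarith
      · have h2 := hyP k i hki
        rw [← hsdef] at h2
        linarith
    have hb0 : 0 ≤ s - |y i| := by
      obtain ⟨j, hj, hje⟩ := active hy i
      rw [← hb j hj]
      exact abs_nonneg _
    rcases hb0.eq_or_lt with hz | hpos
    · -- a vector `± s e_i`
      have hyi : |y i| = s := by linarith
      have hyj : ∀ j, j ≠ i → y j = 0 := by
        intro j hj
        have := hb j hj
        rw [← hz] at this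
        exact abs_eq_zero.1 this
      rcases abs_cases (y i) with ⟨h1, _⟩ | ⟨h1, _⟩
      · refine ⟨fun k => if k = i then 2 else 0, ?_, ?_⟩
        · simp
        · intro k
          by_cases h : k = i
          · subst h; simp only [if_true]; push_cast; linarith
          · rw [hyj k h]; simp [h]
      · refine ⟨fun k => if k = i then -2 else 0, ?_, ?_⟩
        · simp
        · intro k
          by_cases h : k = i
          · subst h; simp only [if_true]; push_cast; linarith
          · rw [hyj k h]; simp [h]
    · exfalso
      set b : ℝ := s - |y i| with hbdef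
      have hbs : b < s / 2 := by linarith
      obtain ⟨δ, hδ0, hδ1, hδ2⟩ : ∃ δ : ℝ, 0 < δ ∧ δ ≤ b ∧ δ ≤ s / 2 - b :=
        ⟨min b (s / 2 - b), lt_min hpos (by linarith), min_le_left _ _, min_le_right _ _⟩
      have hyi : 0 < |y i| := by linarith
      -- the perturbation
      set d : E4 := WithLp.toLp 2 (fun k => if k = i then δ / |y i| * y i else -(δ / b * y k))
        with hd
      have hval : ∀ e : ℝ, |e| = 1 → ∀ k, |(y + e • d) k| =
          if k = i then |y i| + e * δ else b - e * δ := by
        intro e he k
        have he1 : e ≤ 1 := by rw [← he]; exact le_abs_self e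
        have he2 : -1 ≤ e := by rw [← he]; exact neg_abs_le e
        have hdk : (y + e • d) k = y k + e * (if k = i then δ / |y i| * y i else -(δ / b * y k)) := by
          simp [hd]
        rw [hdk]
        by_cases h : k = i
        · subst h
          rw [if_pos rfl, if_pos rfl]
          have e1 : y k + e * (δ / |y k| * y k) = (1 + e * (δ / |y k|)) * y k := by ring
          have hq : δ / |y k| ≤ 1 := by
            rw [div_le_one hyi]
            linarith
          have hq0 : 0 < δ / |y k| := by positivity
          rw [e1, abs_mul, abs_of_nonneg (by nlinarith)]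
          field_simp
        · rw [if_neg h, if_neg h]
          have hk := hb k h
          have e1 : y k + e * -(δ / b * y k) = (1 - e * (δ / b)) * y k := by ring
          have hq : δ / b ≤ 1 := by rw [div_le_one hpos]; exact hδ1
          have hq0 : 0 < δ / b := by positivity
          rw [e1, abs_mul, abs_of_nonneg (by nlinarith), hk]
          field_simp
      have hmem : ∀ e : ℝ, |e| = 1 → y + e • d ∈ PB := by
        intro e he k l hkl
        have he1 : e ≤ 1 := by rw [← he]; exact le_abs_self e
        have he2 : -1 ≤ e := by rw [← he]; exact neg_abs_le e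
        rw [hval e he k, hval e he l, ← hsdef]
        by_cases hki : k = i
        · subst hki
          rw [if_pos rfl, if_neg hkl.symm]
          linarith
        · by_cases hli : l = i
          · subst hli
            rw [if_pos rfl, if_neg hkl]
            linarith
          · rw [if_neg hki, if_neg hli]
            nlinarith
      have h1 := hmem 1 (by norm_num)
      have h2 := hmem (-1) (by norm_num)
      rw [one_smul] at h1
      rw [neg_one_smul, ← sub_eq_add_neg] at h2
      have h4 := no_perturb hy h1 h2
      have h5 := hval 1 (by norm_num) i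
      rw [h4] at h5
      simp at h5
      exact hδ0.ne' h5

/-- The vertices of the polar of the standard cell. -/
theorem extreme_PB : PB.extremePoints ℝ = stdDual := by
  apply Set.Subset.antisymm extreme_PB_subset
  intro v hv
  have h1 : v ∈ (Metric.closedBall (0 : E4) (√(3 / 2))).extremePoints ℝ := by
    apply StrictConvexSpace.sphere_subset_extremePoints_closedBall 0 s32_pos.ne'
    rw [mem_sphere_zero_iff_norm]
    exact dual_norm hv
  exact inter_extremePoints_subset_extremePoints_of_subset PB_ball ⟨dual_mem_PB hv, h1⟩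

lemma root_normsq {v : E4} (hv : v ∈ stdRoots) : ‖v‖ ^ 2 = 4 / 3 := by
  obtain ⟨w, hw, h⟩ := hv
  rw [normsq4, h 0, h 1, h 2, h 3]
  have hw' : ((w 0 : ℝ)) ^ 2 + (w 1 : ℝ) ^ 2 + (w 2 : ℝ) ^ 2 + (w 3 : ℝ) ^ 2 = 2 := by
    rw [Fin.sum_univ_four] at hw
    exact_mod_cast hw
  have h23 := sq23
  linear_combination (√(2 / 3) ^ 2) * hw' + 2 * h23

lemma root_norm {v : E4} (hv : v ∈ stdRoots) : ‖v‖ = √(4 / 3) := by
  rw [← root_normsq hv, Real.sqrt_sq (norm_nonneg _)]

/-- The vertices of the standard cell. -/
theorem extreme_cell : stdCell.extremePoints ℝ = stdRoots := by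
  apply Set.Subset.antisymm extremePoints_convexHull_subset
  intro v hv
  have h43 : (√(4 / 3) : ℝ) ≠ 0 := (Real.sqrt_pos.2 (by norm_num)).ne'
  have hsub : stdCell ⊆ Metric.closedBall (0 : E4) (√(4 / 3)) := by
    apply convexHull_min _ (convex_closedBall _ _)
    intro x hx
    rw [mem_closedBall_zero_iff, root_norm hx]
  have h1 : v ∈ (Metric.closedBall (0 : E4) (√(4 / 3))).extremePoints ℝ := by
    apply StrictConvexSpace.sphere_subset_extremePoints_closedBall 0 h43
    rw [mem_sphere_zero_iff_norm]
    exact root_norm hv
  exact inter_extremePoints_subset_extremePoints_of_subset hsub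
    ⟨subset_convexHull ℝ _ hv, h1⟩

lemma polar_convexHull (S : Set E4) : polarBody (convexHull ℝ S) = polarBody S := by
  apply Set.Subset.antisymm
  · intro y hy x hx
    exact hy x (subset_convexHull ℝ _ hx)
  · intro y hy x hx
    have hconv : Convex ℝ {x : E4 | inner ℝ x y ≤ 1} := by
      intro a ha b hb p q hp hq hpq
      show inner ℝ (p • a + q • b) y ≤ 1
      rw [inner_add_left, inner_smul_left, inner_smul_left]
      simp only [conj_trivial]
      have ha' : inner ℝ a y ≤ 1 := ha
      have hb' : inner ℝ b y ≤ 1 := hb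
      nlinarith
    exact convexHull_min hy hconv hx

lemma polar_image (A : E4 ≃ₗᵢ[ℝ] E4) (S : Set E4) : polarBody (A '' S) = A '' polarBody S := by
  ext y
  constructor
  · intro hy
    refine ⟨A.symm y, ?_, A.apply_symm_apply y⟩
    intro x hx
    have := hy (A x) ⟨x, hx, rfl⟩
    rw [← A.inner_map_map, A.apply_symm_apply]
    exact this
  · rintro ⟨z, hz, rfl⟩ x ⟨x', hx', rfl⟩
    rw [A.inner_map_map]
    exact hz x' hx'

lemma extreme_image (A : E4 ≃ₗᵢ[ℝ] E4) (S : Set E4) :
    (A '' S).extremePoints ℝ = A '' S.extremePoints ℝ :=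
  (image_extremePoints A S).symm

/-- The vertices of a general cell. -/
theorem extreme_general (A : E4 ≃ₗᵢ[ℝ] E4) :
    (A '' stdCell).extremePoints ℝ = A '' stdRoots := by
  rw [extreme_image, extreme_cell]

/-- The vertices of the polar of a general cell. -/
theorem extreme_polar_general (A : E4 ≃ₗᵢ[ℝ] E4) :
    (polarBody (A '' stdCell)).extremePoints ℝ = A '' stdDual := by
  rw [polar_image, extreme_image]
  unfold stdCell
  rw [polar_convexHull, polar_roots, extreme_PB]

end Pool.Agent.Q247.AP
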