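import Pool.Agent.Q247.AP.Geo2

/-!
# Stereographic images of caps
-/

set_option autoImplicit false

namespace Pool.Agent.Q247.AP

lemma inner4 (x y : E4) : inner ℝ x y = x 0 * y 0 + x 1 * y 1 + x 2 * y 2 + x 3 * y 3 := by
  rw [PiLp.inner_apply, Fin.sum_univ_four]
  simp only [RCLike.inner_apply, conj_trivial]
  ring

lemma inner3 (x y : E3) : inner ℝ x y = x 0 * y 0 + x 1 * y 1 + x 2 * y 2 := by
  rw [PiLp.inner_apply, Fin.sum_univ_three]
  simp only [RCLike.inner_apply, conj_trivial]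
  ring

lemma normsq4 (x : E4) : ‖x‖ ^ 2 = x 0 ^ 2 + x 1 ^ 2 + x 2 ^ 2 + x 3 ^ 2 := by
  rw [← real_inner_self_eq_norm_sq, inner4]; ring

lemma normsq3 (x : E3) : ‖x‖ ^ 2 = x 0 ^ 2 + x 1 ^ 2 + x 2 ^ 2 := by
  rw [← real_inner_self_eq_norm_sq, inner3]; ring

lemma north_apply0 : north 0 = 0 := by simp [north]
lemma north_apply1 : north 1 = 0 := by simp [north]
lemma north_apply2 : north 2 = 0 := by simp [north]
lemma north_apply3 : north 3 = 1 := by simp [north]

lemma norm_north : ‖north‖ = 1 := by simp [north]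

lemma inner_north (v : E4) : inner ℝ north v = v 3 := by
  rw [inner4, north_apply0, north_apply1, north_apply2, north_apply3]; ring

/-- The Lorentz vector of the dilated stereographic image of the cap `⟨x, X⟩ ≥ T`. -/
noncomputable def capLV (k : ℝ) (X : E4) (T : ℝ) : LV :=
  ⟨(T - X 3) / k, WithLp.toLp 2 (fun i : Fin 3 => X i.castSucc), k * (T + X 3)⟩

lemma capLV_b0 (k : ℝ) (X : E4) (T : ℝ) : (capLV k X T).b 0 = X 0 := rfl
lemma capLV_b1 (k : ℝ) (X : E4) (T : ℝ) : (capLV k X T).b 1 = X 1 := rfl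
lemma capLV_b2 (k : ℝ) (X : E4) (T : ℝ) : (capLV k X T).b 2 = X 2 := rfl

lemma lor_capLV {k : ℝ} (hk : k ≠ 0) (X Y : E4) (T S : ℝ) :
    (capLV k X T).lor (capLV k Y S) = inner ℝ X Y - T * S := by
  unfold LV.lor
  rw [inner3, inner4]
  simp only [capLV_b0, capLV_b1, capLV_b2]
  simp only [capLV]
  field_simp
  ring

lemma refl_capLV {k : ℝ} (hk : k ≠ 0) (X Y : E4) (T S : ℝ) :
    (capLV k X T).refl (capLV k Y S) =
      capLV k (X - (2 * (inner ℝ X Y - T * S)) • Y) (T - 2 * (inner ℝ X Y - T * S) * S) := by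
  unfold LV.refl
  rw [lor_capLV hk]
  generalize inner ℝ X Y - T * S = μ
  ext1
  · simp only [capLV, PiLp.sub_apply, PiLp.smul_apply, smul_eq_mul]
    field_simp
    ring
  · ext i
    simp [capLV]
  · simp only [capLV, PiLp.sub_apply, PiLp.smul_apply, smul_eq_mul]
    ring

lemma lt_one_of_ne_north {x : E4} (hx : ‖x‖ = 1) (h : x ≠ north) : x 3 < 1 := by
  have h1 := normsq4 x
  rw [hx] at h1
  by_contra hcon
  push Not at hcon
  apply h
  have h3 : x 3 = 1 := by nlinarith [sq_nonneg (x 0), sq_nonneg (x 1), sq_nonneg (x 2)]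
  rw [h3] at h1
  have e0 : x 0 = 0 := by
    have : x 0 ^ 2 = 0 := by nlinarith [sq_nonneg (x 0), sq_nonneg (x 1), sq_nonneg (x 2)]
    exact pow_eq_zero_iff (two_ne_zero) |>.1 this
  have e1 : x 1 = 0 := by
    have : x 1 ^ 2 = 0 := by nlinarith [sq_nonneg (x 0), sq_nonneg (x 1), sq_nonneg (x 2)]
    exact pow_eq_zero_iff (two_ne_zero) |>.1 this
  have e2 : x 2 = 0 := by
    have : x 2 ^ 2 = 0 := by nlinarith [sq_nonneg (x 0), sq_nonneg (x 1), sq_nonneg (x 2)]
    exact pow_eq_zero_iff (two_ne_zero) |>.1 this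
  ext i
  fin_cases i
  · show x 0 = north 0; rw [e0, north_apply0]
  · show x 1 = north 1; rw [e1, north_apply1]
  · show x 2 = north 2; rw [e2, north_apply2]
  · show x 3 = north 3; rw [h3, north_apply3]

lemma stereo_north : stereo north = OnePoint.infty := by simp [stereo]

lemma stereo_ne {x : E4} (h : x ≠ north) : stereo x =
    ((WithLp.toLp 2 (fun i : Fin 3 => x i.castSucc / (1 - x 3)) : E3) : OnePoint E3) := by
  simp [stereo, h]

lemma infty_mem_capImage (v : E4) : (OnePoint.infty : OnePoint E3) ∈ capImage v ↔ 1 ≤ v 3 := by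
  unfold capImage
  constructor
  · rintro ⟨x, ⟨hx1, hx2⟩, hx⟩
    have : x = north := by
      by_contra h
      rw [stereo_ne h] at hx
      exact OnePoint.coe_ne_infty _ hx
    rw [this, inner_north] at hx2
    exact hx2
  · intro h
    exact ⟨north, ⟨norm_north, by rw [inner_north]; exact h⟩, stereo_north⟩

lemma coe_mem_capImage (v : E4) (y : E3) : (y : OnePoint E3) ∈ capImage v ↔
    0 ≤ 2 * (y 0 * v 0 + y 1 * v 1 + y 2 * v 2) + (‖y‖ ^ 2 - 1) * v 3 - (‖y‖ ^ 2 + 1) := by
  unfold capImage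
  rw [normsq3]
  constructor
  · rintro ⟨x, ⟨hx1, hx2⟩, hx⟩
    have hne : x ≠ north := by
      rintro rfl
      rw [stereo_north] at hx
      exact OnePoint.infty_ne_coe _ hx
    rw [stereo_ne hne, OnePoint.coe_eq_coe] at hx
    have hd : 0 < 1 - x 3 := by linarith [lt_one_of_ne_north hx1 hne]
    have e0 : y 0 = x 0 / (1 - x 3) := by rw [← hx]; rfl
    have e1 : y 1 = x 1 / (1 - x 3) := by rw [← hx]; rfl
    have e2 : y 2 = x 2 / (1 - x 3) := by rw [← hx]; rfl
    have hn := normsq4 x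
    rw [hx1] at hn
    rw [inner4] at hx2
    have f0 : y 0 * (1 - x 3) = x 0 := by rw [e0]; field_simp
    have f1 : y 1 * (1 - x 3) = x 1 := by rw [e1]; field_simp
    have f2 : y 2 * (1 - x 3) = x 2 := by rw [e2]; field_simp
    have g : (y 0 ^ 2 + y 1 ^ 2 + y 2 ^ 2) * (1 - x 3) = 1 + x 3 := by
      have h1 : (y 0 ^ 2 + y 1 ^ 2 + y 2 ^ 2) * (1 - x 3) * (1 - x 3) =
          (1 + x 3) * (1 - x 3) := by
        have : (y 0 ^ 2 + y 1 ^ 2 + y 2 ^ 2) * (1 - x 3) * (1 - x 3) =
          (y 0 * (1 - x 3)) ^ 2 + (y 1 * (1 - x 3)) ^ 2 + (y 2 * (1 - x 3)) ^ 2 := by ring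
        rw [this, f0, f1, f2]
        linarith
      exact mul_right_cancel₀ hd.ne' h1
    have key : (2 * (y 0 * v 0 + y 1 * v 1 + y 2 * v 2) + ((y 0 ^ 2 + y 1 ^ 2 + y 2 ^ 2) - 1) * v 3
        - ((y 0 ^ 2 + y 1 ^ 2 + y 2 ^ 2) + 1)) * (1 - x 3) =
        2 * (x 0 * v 0 + x 1 * v 1 + x 2 * v 2 + x 3 * v 3 - 1) := by
      linear_combination (2 * v 0) * f0 + (2 * v 1) * f1 + (2 * v 2) * f2 + (v 3 - 1) * g
    have : 0 ≤ (2 * (y 0 * v 0 + y 1 * v 1 + y 2 * v 2) +
        ((y 0 ^ 2 + y 1 ^ 2 + y 2 ^ 2) - 1) * v 3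
        - ((y 0 ^ 2 + y 1 ^ 2 + y 2 ^ 2) + 1)) * (1 - x 3) := by
      rw [key]; linarith
    exact nonneg_of_mul_nonneg_left this hd
  · intro h
    set r : ℝ := y 0 ^ 2 + y 1 ^ 2 + y 2 ^ 2 with hr
    have hr0 : 0 ≤ r := by positivity
    have hpos : 0 < r + 1 := by positivity
    set x : E4 := WithLp.toLp 2 ![2 * y 0 / (r + 1), 2 * y 1 / (r + 1), 2 * y 2 / (r + 1),
      (r - 1) / (r + 1)] with hx
    have x0 : x 0 = 2 * y 0 / (r + 1) := rfl
    have x1 : x 1 = 2 * y 1 / (r + 1) := rfl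
    have x2 : x 2 = 2 * y 2 / (r + 1) := rfl
    have x3 : x 3 = (r - 1) / (r + 1) := rfl
    have hx3 : 1 - x 3 = 2 / (r + 1) := by rw [x3]; field_simp; ring
    refine ⟨x, ⟨?_, ?_⟩, ?_⟩
    · have h1 : ‖x‖ ^ 2 = 1 := by
        rw [normsq4, x0, x1, x2, x3]
        field_simp
        rw [hr]
        ring
      have h0 := norm_nonneg x
      nlinarith
    · rw [inner4, x0, x1, x2, x3]
      have : 2 * y 0 / (r + 1) * v 0 + 2 * y 1 / (r + 1) * v 1 + 2 * y 2 / (r + 1) * v 2 +
          (r - 1) / (r + 1) * v 3 =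
          (2 * (y 0 * v 0 + y 1 * v 1 + y 2 * v 2) + (r - 1) * v 3) / (r + 1) := by
        field_simp
      rw [this, le_div_iff₀ hpos]
      linarith
    · have hne : x ≠ north := by
        intro hh
        have : x 3 = 1 := by rw [hh, north_apply3]
        rw [this] at hx3
        have : (0 : ℝ) < 2 / (r + 1) := by positivity
        linarith
      rw [stereo_ne hne, OnePoint.coe_eq_coe]
      ext i
      show x i.castSucc / (1 - x 3) = y i
      rw [hx3]
      fin_cases i
      · show x 0 / (2 / (r + 1)) = y 0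
        rw [x0]; field_simp
      · show x 1 / (2 / (r + 1)) = y 1
        rw [x1]; field_simp
      · show x 2 / (2 / (r + 1)) = y 2
        rw [x2]; field_simp

/-- The dilated stereographic image of a cap as a generalized ball. -/
lemma dilate_capImage {k s : ℝ} (hk : 0 < k) (hs : 0 < s) (v : E4) :
    dilate k (capImage v) = (capLV k (s • v) s).carrier := by
  unfold dilate
  ext p
  induction p using OnePoint.rec with
  | infty =>
    rw [LV.infty_mem]
    have e : (capLV k (s • v) s).a ≤ 0 ↔ 1 ≤ v 3 := by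
      show (s - (s • v) 3) / k ≤ 0 ↔ 1 ≤ v 3
      rw [div_le_iff₀ hk, zero_mul, PiLp.smul_apply, smul_eq_mul]
      constructor
      · intro h; nlinarith
      · intro h; nlinarith
    rw [e, ← infty_mem_capImage]
    constructor
    · rintro ⟨p, hp, hpe⟩
      induction p using OnePoint.rec with
      | infty => exact hp
      | coe x =>
        rw [OnePoint.map_some] at hpe
        exact absurd hpe (OnePoint.coe_ne_infty _)
    · intro h
      exact ⟨_, h, rfl⟩
  | coe x =>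
    rw [LV.coe_mem]
    have e1 : ((x : OnePoint E3) ∈ (OnePoint.map fun x : E3 => k • x) '' capImage v) ↔
        (((k⁻¹ • x : E3)) : OnePoint E3) ∈ capImage v := by
      constructor
      · rintro ⟨p, hp, hpe⟩
        induction p using OnePoint.rec with
        | infty =>
          rw [OnePoint.map_infty] at hpe
          exact absurd hpe (OnePoint.infty_ne_coe _)
        | coe z =>
          rw [OnePoint.map_some, OnePoint.some_eq_iff] at hpe
          rw [← hpe, smul_smul, inv_mul_cancel₀ hk.ne', one_smul]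
          exact hp
      · intro h
        refine ⟨_, h, ?_⟩
        rw [OnePoint.map_some, smul_smul, mul_inv_cancel₀ hk.ne', one_smul]
    rw [e1, coe_mem_capImage]
    unfold LV.q
    rw [inner3, capLV_b0, capLV_b1, capLV_b2, norm_smul, mul_pow, Real.norm_eq_abs, sq_abs]
    simp only [capLV, PiLp.smul_apply, smul_eq_mul]
    have key : (s - s * v 3) / k * ‖x‖ ^ 2 - 2 * (s * v 0 * x 0 + s * v 1 * x 1 + s * v 2 * x 2) +
        k * (s + s * v 3) = -(s * k) * (2 * (k⁻¹ * x 0 * v 0 + k⁻¹ * x 1 * v 1 + k⁻¹ * x 2 * v 2) +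
        (k⁻¹ ^ 2 * ‖x‖ ^ 2 - 1) * v 3 - (k⁻¹ ^ 2 * ‖x‖ ^ 2 + 1)) := by
      field_simp
      ring
    rw [key]
    have hsk : 0 < s * k := by positivity
    constructor
    · intro h; nlinarith
    · intro h
      by_contra hcon
      push Not at hcon
      nlinarith

end Pool.Agent.Q247.AP
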